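import Mathlib

/-!
# Endomorphisms of an object outside a full triangulated subcategory

`ι : C ⥤ T` is a fully faithful triangulated functor, `t : G ⟶ G` an endomorphism of an object
of `T`.
-/

open CategoryTheory CategoryTheory.Limits CategoryTheory.Pretriangulated

namespace Pool.Stab

universe v u v' u'

variable {C : Type u} [Category.{v} C] [Preadditive C] [HasZeroObject C] [HasShift C ℤ]
  [∀ n : ℤ, (shiftFunctor C n).Additive] [Pretriangulated C]
  {T : Type u'} [Category.{v'} T] [Preadditive T] [HasZeroObject T] [HasShift T ℤ]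
  [∀ n : ℤ, (shiftFunctor T n).Additive] [Pretriangulated T]

/-- The object `E` of `C` is a cone of the morphism `f` of `T`. -/
def IsCone (ι : C ⥤ T) {X Y : T} (f : X ⟶ Y) (E : C) : Prop :=
  ∃ (g : Y ⟶ ι.obj E) (h : ι.obj E ⟶ X⟦(1 : ℤ)⟧), Triangle.mk f g h ∈ distTriang T

/-- The iterates of an endomorphism. -/
def iter {G : T} (t : G ⟶ G) : ℕ → (G ⟶ G)
  | 0 => 𝟙 G
  | n + 1 => t ≫ iter t n

variable [Linear ℂ C] [Linear ℂ T]

/-- The Euler characteristic `∑ₙ (-1)ⁿ dim Hom(G, A[n])` for `G` in `T` and `A` in `C`. -/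
noncomputable def degChar (ι : C ⥤ T) (G : T) (A : C) : ℤ :=
  ∑ᶠ n : ℤ, (n.negOnePow : ℤ) * (Module.finrank ℂ (G ⟶ ι.obj (A⟦n⟧)) : ℤ)

/-- The conditions on an endomorphism `t : G ⟶ G`: the spaces `Hom(G, A)` are finite
dimensional for `A` in `C` and vanish for almost all shifts of `A`, every morphism `G ⟶ A` is
annihilated by a power of `t`, the cone of `t` lies in `C`, and `dim Hom(E, E[1]) ≤ 2 n + c` for
the cone `E` of `tⁿ`. -/
structure Param (ι : C ⥤ T) {G : T} (t : G ⟶ G) : Prop where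
  fin : ∀ A : C, FiniteDimensional ℂ (G ⟶ ι.obj A)
  bdd : ∀ A : C, {n : ℤ | ∃ f : G ⟶ ι.obj (A⟦n⟧), f ≠ 0}.Finite
  nil : ∀ (A : C) (f : G ⟶ ι.obj A), ∃ m : ℕ, iter t m ≫ f = 0
  cone : ∃ B : C, IsCone ι t B
  growth : ∃ c : ℕ, ∀ (n : ℕ) (E : C), IsCone ι (iter t n) E →
    Module.finrank ℂ (E ⟶ E⟦(1 : ℤ)⟧) ≤ 2 * n + c

end Pool.Stab
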