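import Mathlib
import Pool.Agent.Work.MP_841263_o.ODefs
import Pool.Agent.Work.MP_841263_st.Gen
import Pool.Agent.Work.MP_841263_st.Simple

/-!
# Morphisms with cone in a full triangulated subcategory

`ι : C ⥤ T` is a fully faithful triangulated functor. We consider morphisms of `T` whose cone
is an object of `C`.
-/

open CategoryTheory CategoryTheory.Limits CategoryTheory.Pretriangulated
open scoped ZeroObject

set_option backward.isDefEq.respectTransparency false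
set_option backward.defeqAttrib.useBackward true
set_option linter.unusedSectionVars false

namespace Pool.Stab

universe v u v' u'

variable {C : Type u} [Category.{v} C] [Preadditive C] [HasZeroObject C] [HasShift C ℤ]
  [∀ n : ℤ, (shiftFunctor C n).Additive] [Pretriangulated C]
  {T : Type u'} [Category.{v'} T] [Preadditive T] [HasZeroObject T] [HasShift T ℤ]
  [∀ n : ℤ, (shiftFunctor T n).Additive] [Pretriangulated T]

lemma iter_succ {G : T} (τ : G ⟶ G) (n : ℕ) : iter τ (n + 1) = τ ≫ iter τ n := rfl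

lemma iter_succ' {G : T} (τ : G ⟶ G) (n : ℕ) : iter τ (n + 1) = iter τ n ≫ τ := by
  induction n with
  | zero => simp [iter]
  | succ n ih =>
    conv_lhs => rw [iter_succ, ih, ← Category.assoc, ← iter_succ]

lemma iter_one {G : T} (τ : G ⟶ G) : iter τ 1 = τ := by simp [iter]

lemma iter_rot {G G' : T} (v : G ⟶ G') (u : G' ⟶ G) (n : ℕ) :
    iter (u ≫ v) (n + 1) = (u ≫ iter (v ≫ u) n) ≫ v := by
  induction n with
  | zero => simp [iter]
  | succ n ih =>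
    rw [iter_succ, ih, iter_succ (v ≫ u) n]
    simp [Category.assoc]

lemma iter_add {G : T} (τ : G ⟶ G) (m n : ℕ) : iter τ (m + n) = iter τ m ≫ iter τ n := by
  induction m with
  | zero => simp [iter]
  | succ m ih => rw [Nat.succ_add, iter_succ, ih, iter_succ, Category.assoc]

lemma iter_shift {G : T} (τ : G ⟶ G) (k : ℤ) (n : ℕ) :
    iter (τ⟦k⟧') n = (iter τ n)⟦k⟧' := by
  induction n with
  | zero => simp [iter]
  | succ n ih => rw [iter_succ, ih, iter_succ, Functor.map_comp]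

section

variable (ι : C ⥤ T) [ι.CommShift ℤ] [ι.IsTriangulated] [ι.Full] [ι.Faithful]

lemma map_tri {X Y Z : C} {f : X ⟶ Y} {g : Y ⟶ Z} {h : Z ⟶ X⟦(1 : ℤ)⟧}
    (hT : Triangle.mk f g h ∈ distTriang C) :
    Triangle.mk (ι.map f) (ι.map g) (ι.map h ≫ (ι.commShiftIso (1 : ℤ)).hom.app X) ∈
      distTriang T := ι.map_distinguished _ hT

lemma isZero_map_iff (X : C) : IsZero (ι.obj X) ↔ IsZero X := by
  constructor
  · intro h
    rw [IsZero.iff_id_eq_zero] at h ⊢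
    apply ι.map_injective
    rw [ι.map_id, h, ι.map_zero]
  · intro h
    exact ι.map_isZero h

variable {ι}

lemma IsCone.iso {X Y : T} {f : X ⟶ Y} {E E' : C} (h : IsCone ι f E) (e : E ≅ E') :
    IsCone ι f E' := by
  obtain ⟨g, k, hT⟩ := h
  exact ⟨_, _, tri_last_iso hT (ι.mapIso e)⟩

lemma IsCone.comp_left {X' X Y : T} {f : X ⟶ Y} {E : C} (h : IsCone ι f E) (e : X' ⟶ X)
    [IsIso e] : IsCone ι (e ≫ f) E := by
  obtain ⟨g, k, hT⟩ := h
  refine ⟨g, k ≫ (inv e)⟦(1 : ℤ)⟧', ?_⟩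
  refine isomorphic_distinguished _ hT _ ?_
  exact Triangle.isoMk _ _ (asIso e) (Iso.refl _) (Iso.refl _) (by simp) (by simp) (by simp)

lemma IsCone.comp_right {X Y Y' : T} {f : X ⟶ Y} {E : C} (h : IsCone ι f E) (e : Y ⟶ Y')
    [IsIso e] : IsCone ι (f ≫ e) E := by
  obtain ⟨g, k, hT⟩ := h
  exact ⟨_, _, tri_mid_iso hT (asIso e)⟩

lemma IsCone.isIso {X Y : T} {f : X ⟶ Y} {E : C} (h : IsCone ι f E) (hE : IsZero E) :
    IsIso f := by
  obtain ⟨g, k, hT⟩ := h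
  exact iso_of_isZero₃ hT ((isZero_map_iff ι E).2 hE)

lemma isCone_of_isIso {X Y : T} (f : X ⟶ Y) [IsIso f] {E : C} (hE : IsZero E) :
    IsCone ι f E := by
  have h := tri_of_iso (asIso f)
  have e : (0 : T) ≅ ι.obj E := (isZero_zero T).iso ((isZero_map_iff ι E).2 hE)
  exact ⟨_, _, tri_last_iso h e⟩

/-- Two cones of the same morphism are isomorphic. -/
lemma IsCone.unique {X Y : T} {f : X ⟶ Y} {E E' : C} (h : IsCone ι f E) (h' : IsCone ι f E') :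
    Nonempty (E ≅ E') := by
  obtain ⟨g, k, hT⟩ := h
  obtain ⟨g', k', hT'⟩ := h'
  obtain ⟨e, -⟩ := exists_iso_of_arrow_iso _ _ hT hT' (Iso.refl _)
  exact ⟨ι.preimageIso (Triangle.π₃.mapIso e)⟩

/-- Two triangles with the same third morphism. -/
lemma iso_of_mor₃ {X Y Y' Z : T} {f : X ⟶ Y} {g : Y ⟶ Z} {f' : X ⟶ Y'} {g' : Y' ⟶ Z}
    {h : Z ⟶ X⟦(1 : ℤ)⟧} (hT : Triangle.mk f g h ∈ distTriang T)
    (hT' : Triangle.mk f' g' h ∈ distTriang T) :
    ∃ e : Y ≅ Y', f ≫ e.hom = f' ∧ e.hom ≫ g' = g := by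
  obtain ⟨b, hb1, hb2⟩ := complete_distinguished_triangle_morphism₂ _ _ hT hT' (𝟙 X) (𝟙 Z)
    (by simp)
  let φ : Triangle.mk f g h ⟶ Triangle.mk f' g' h :=
    { hom₁ := 𝟙 X, hom₂ := b, hom₃ := 𝟙 Z, comm₁ := by simpa using hb1,
      comm₂ := by simpa using hb2, comm₃ := by simp }
  have hφ : IsIso b := isIso₂_of_isIso₁₃ φ hT hT' (by dsimp [φ]; infer_instance)
    (by dsimp [φ]; infer_instance)
  exact ⟨asIso b, by simpa using hb1, by simpa using hb2.symm⟩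

variable [IsTriangulated T]

/-- The cone of a composition. -/
lemma IsCone.merge {X M Y : T} {v : X ⟶ M} {w : M ⟶ Y} {E' E'' : C} (hv : IsCone ι v E')
    (hw : IsCone ι w E'') : ∃ (W : C) (a : E' ⟶ W) (b : W ⟶ E'') (c : E'' ⟶ E'⟦(1 : ℤ)⟧),
      Triangle.mk a b c ∈ distTriang C ∧ IsCone ι (v ≫ w) W := by
  obtain ⟨g1, k1, h1⟩ := hv
  obtain ⟨g2, k2, h2⟩ := hw
  obtain ⟨W', p, q, h3⟩ := distinguished_cocone_triangle (v ≫ w)
  obtain ⟨m, n, r, hmn, -⟩ := exists_octa h1 h2 h3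
  obtain ⟨c, hc⟩ : ∃ c : E'' ⟶ E'⟦(1 : ℤ)⟧,
      ι.map c = r ≫ (ι.commShiftIso (1 : ℤ)).inv.app E' :=
    ⟨ι.preimage _, ι.map_preimage _⟩
  obtain ⟨W, a, b, hT⟩ := distinguished_cocone_triangle₂ c
  have hT' := map_tri ι hT
  have hr : ι.map c ≫ (ι.commShiftIso (1 : ℤ)).hom.app E' = r := by
    rw [hc]; simp
  rw [hr] at hT'
  obtain ⟨e, -, -⟩ := iso_of_mor₃ hmn hT'
  exact ⟨W, a, b, c, hT, _, _, tri_last_iso h3 e⟩

/-- The morphism `w` is determined by its shift. -/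
lemma cone_of_shift {M Y Z : T} {w : M ⟶ Y} {m : Z ⟶ M⟦(1 : ℤ)⟧}
    {r : Y⟦(1 : ℤ)⟧ ⟶ Z⟦(1 : ℤ)⟧} (h : Triangle.mk m (w⟦(1 : ℤ)⟧') r ∈ distTriang T) :
    ∃ (g : Y ⟶ Z) (k : Z ⟶ M⟦(1 : ℤ)⟧), Triangle.mk w g k ∈ distTriang T := by
  obtain ⟨K, g, k, hT⟩ := distinguished_cocone_triangle w
  have hTs := Triangle.shift_distinguished _ hT (1 : ℤ)
  obtain ⟨e', -⟩ := exists_iso_of_arrow_iso _ _ hTs (rot_mk h)
    (Arrow.isoMk (Iso.refl _) (-(Iso.refl _)) (by simp))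
  have e3 : K⟦(1 : ℤ)⟧ ≅ Z⟦(1 : ℤ)⟧ := Triangle.π₃.mapIso e'
  have e4 : K ≅ Z := (shiftFunctor T (1 : ℤ)).preimageIso e3
  exact ⟨_, _, tri_last_iso hT e4⟩

/-- If the cone of `f` is an extension, then `f` is a composition. -/
lemma IsCone.split {X Y : T} {f : X ⟶ Y} {E' W E'' : C} (hf : IsCone ι f W) {a : E' ⟶ W}
    {b : W ⟶ E''} {c : E'' ⟶ E'⟦(1 : ℤ)⟧} (hT : Triangle.mk a b c ∈ distTriang C) :
    ∃ (M : T) (v : X ⟶ M) (w : M ⟶ Y), v ≫ w = f ∧ IsCone ι v E' ∧ IsCone ι w E'' := by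
  obtain ⟨g, h, h1⟩ := hf
  obtain ⟨M, v, g', h2⟩ := distinguished_cocone_triangle₂ (ι.map a ≫ h)
  have hT' := map_tri ι hT
  obtain ⟨m, n, r, hmn, c1, c2, c3, c4⟩ :=
    exists_octa hT' (rot_mk (rot_mk h1)) (rot_mk (rot_mk h2))
  obtain ⟨w, hw⟩ : ∃ w : M ⟶ Y, w⟦(1 : ℤ)⟧' = n :=
    ⟨(shiftFunctor T (1 : ℤ)).preimage n, Functor.map_preimage _ _⟩
  refine ⟨M, v, w, ?_, ⟨g', _, h2⟩, ?_⟩
  · apply (shiftFunctor T (1 : ℤ)).map_injective
    rw [Functor.map_comp, hw]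
    have : (-v⟦(1 : ℤ)⟧') ≫ n = -f⟦(1 : ℤ)⟧' := c3
    rw [Preadditive.neg_comp] at this
    exact neg_injective this
  · rw [← hw] at hmn
    exact cone_of_shift hmn

end

end Pool.Stab
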