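import Mathlib
import Pool.Agent.Work.MP_841263_o.Cone

/-!
# Factorisations of a morphism with given cones
-/

open CategoryTheory CategoryTheory.Limits CategoryTheory.Pretriangulated
open scoped ZeroObject

set_option backward.isDefEq.respectTransparency false
set_option backward.defeqAttrib.useBackward true
set_option linter.unusedSectionVars false

namespace Pool.Stab

universe v u v' u'

variable {C : Type u} [Category.{v} C] [Preadditive C] [HasZeroObject C] [HasShift C ℤ]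
  [∀ n : ℤ, (shiftFunctor C n).Additive] [Pretriangulated C]
  {T : Type u'} [Category.{v'} T] [Preadditive T] [HasZeroObject T] [HasShift T ℤ]
  [∀ n : ℤ, (shiftFunctor T n).Additive] [Pretriangulated T]

/-- `f` is a composition of morphisms with cones the members of the list. -/
def Fac (ι : C ⥤ T) : List C → ∀ {X Y : T}, (X ⟶ Y) → Prop
  | [], _, _, f => IsIso f
  | E :: L, X, Y, f => ∃ (W : T) (v : X ⟶ W) (w : W ⟶ Y), v ≫ w = f ∧ IsCone ι v E ∧ Fac ι L w

/-- `W` is an iterated extension of the members of the list (the first one is the sub-object). -/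
def Filt : List C → C → Prop
  | [], W => IsZero W
  | E :: L, W => ∃ (W' : C) (a : E ⟶ W) (b : W ⟶ W') (c : W' ⟶ E⟦(1 : ℤ)⟧),
      Triangle.mk a b c ∈ distTriang C ∧ Filt L W'

lemma Filt.iso {L : List C} {W W' : C} (h : Filt L W) (e : W ≅ W') : Filt L W' := by
  cases L with
  | nil => exact IsZero.of_iso h e.symm
  | cons E L =>
    obtain ⟨V, a, b, c, hT, hV⟩ := h
    exact ⟨V, _, _, _, tri_mid_iso hT e, hV⟩

lemma tri_of_iso' {X Y : C} (e : X ≅ Y) :
    Triangle.mk (0 : (0 : C) ⟶ X) e.hom (0 : Y ⟶ (0 : C)⟦(1 : ℤ)⟧) ∈ distTriang C := by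
  refine isomorphic_distinguished _ (contractible_distinguished₁ Y) _ ?_
  exact Triangle.isoMk _ _ (Iso.refl _) e (Iso.refl _) (by simp) (by simp) (by simp)

lemma Filt.single (E : C) : Filt [E] E :=
  ⟨0, 𝟙 E, 0, 0, contractible_distinguished E, isZero_zero C⟩

lemma Filt.snoc [IsTriangulated C] {L : List C} : ∀ {X Y A : C} (_ : Filt L X) {f : X ⟶ Y}
    {g : Y ⟶ A} {h : A ⟶ X⟦(1 : ℤ)⟧} (_ : Triangle.mk f g h ∈ distTriang C),
    Filt (L ++ [A]) Y := by
  induction L with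
  | nil =>
    intro X Y A hX f g h hT
    have := iso_of_isZero₁ hT hX
    exact (Filt.single A).iso (asIso g).symm
  | cons E L ih =>
    intro X Y A hX f g h hT
    obtain ⟨X', a, b, c, hT', hX'⟩ := hX
    obtain ⟨Y', p, q, h3⟩ := distinguished_cocone_triangle (a ≫ f)
    obtain ⟨m, n, r, hmn, -⟩ := exists_octa hT' hT h3
    exact ⟨Y', a ≫ f, p, q, h3, ih hX' hmn⟩

section

variable {ι : C ⥤ T} [ι.CommShift ℤ] [ι.IsTriangulated] [ι.Full] [ι.Faithful]

lemma Fac.comp_left {L : List C} {X' X Y : T} {f : X ⟶ Y} (h : Fac ι L f) (e : X' ⟶ X)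
    [IsIso e] : Fac ι L (e ≫ f) := by
  cases L with
  | nil =>
    have : IsIso f := h
    exact (inferInstance : IsIso (e ≫ f))
  | cons E L =>
    obtain ⟨W, v, w, rfl, hv, hw⟩ := h
    exact ⟨W, e ≫ v, w, by simp, hv.comp_left e, hw⟩

lemma Fac.comp_right {L : List C} : ∀ {X Y Y' : T} {f : X ⟶ Y} (_ : Fac ι L f) (e : Y ⟶ Y')
    [IsIso e], Fac ι L (f ≫ e) := by
  induction L with
  | nil =>
    intro X Y Y' f h e _
    have : IsIso f := h
    exact (inferInstance : IsIso (f ≫ e))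
  | cons E L ih =>
    intro X Y Y' f h e _
    obtain ⟨W, v, w, rfl, hv, hw⟩ := h
    exact ⟨W, v, w ≫ e, by simp, hv, ih hw e⟩

lemma Fac.append {L M : List C} : ∀ {X Y Z : T} {f : X ⟶ Y} {g : Y ⟶ Z} (_ : Fac ι L f)
    (_ : Fac ι M g), Fac ι (L ++ M) (f ≫ g) := by
  induction L with
  | nil =>
    intro X Y Z f g hf hg
    have : IsIso f := hf
    exact hg.comp_left f
  | cons E L ih =>
    intro X Y Z f g hf hg
    obtain ⟨W, v, w, rfl, hv, hw⟩ := hf
    exact ⟨W, v, w ≫ g, by simp, hv, ih hw hg⟩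

lemma Fac.split {L M : List C} : ∀ {X Y : T} {f : X ⟶ Y} (_ : Fac ι (L ++ M) f),
    ∃ (W : T) (v : X ⟶ W) (w : W ⟶ Y), v ≫ w = f ∧ Fac ι L v ∧ Fac ι M w := by
  induction L with
  | nil =>
    intro X Y f hf
    exact ⟨X, 𝟙 X, f, by simp, (inferInstance : IsIso (𝟙 X)), hf⟩
  | cons E L ih =>
    intro X Y f hf
    obtain ⟨W, v, w, rfl, hv, hw⟩ := hf
    obtain ⟨W', v', w', rfl, hv', hw'⟩ := ih hw
    exact ⟨W', v ≫ v', w', by simp, ⟨W, v, v', rfl, hv, hv'⟩, hw'⟩

lemma fac_single {X Y : T} {f : X ⟶ Y} {E : C} : Fac ι [E] f ↔ IsCone ι f E := by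
  constructor
  · rintro ⟨W, v, w, rfl, hv, hw⟩
    have : IsIso w := hw
    exact hv.comp_right w
  · intro h
    exact ⟨Y, f, 𝟙 Y, by simp, h, (inferInstance : IsIso (𝟙 Y))⟩

variable [IsTriangulated T]

lemma IsCone.fac {L : List C} : ∀ {X Y : T} {f : X ⟶ Y} {W : C} (_ : IsCone ι f W)
    (_ : Filt L W), Fac ι L f := by
  induction L with
  | nil =>
    intro X Y f W hf hW
    exact hf.isIso hW
  | cons E L ih =>
    intro X Y f W hf hW
    obtain ⟨V, a, b, c, hT, hV⟩ := hW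
    obtain ⟨M, v, w, h1, hv, hw⟩ := hf.split hT
    exact ⟨M, v, w, h1, hv, ih hw hV⟩

lemma Fac.cone {L : List C} : ∀ {X Y : T} {f : X ⟶ Y} (_ : Fac ι L f),
    ∃ W : C, IsCone ι f W ∧ Filt L W := by
  induction L with
  | nil =>
    intro X Y f hf
    have : IsIso f := hf
    exact ⟨0, isCone_of_isIso f (isZero_zero C), isZero_zero C⟩
  | cons E L ih =>
    intro X Y f hf
    obtain ⟨M, v, w, rfl, hv, hw⟩ := hf
    obtain ⟨V, hV1, hV2⟩ := ih hw
    obtain ⟨W, a, b, c, hT, hW⟩ := hv.merge hV1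
    exact ⟨W, hW, V, a, b, c, hT, hV2⟩

lemma Fac.replace {L M N M' : List C} {X Y : T} {f : X ⟶ Y} (h : Fac ι (L ++ (M ++ N)) f)
    (hM : ∀ {X Y : T} (g : X ⟶ Y), Fac ι M g → Fac ι M' g) : Fac ι (L ++ (M' ++ N)) f := by
  obtain ⟨W, v, w, rfl, hv, hw⟩ := h.split
  obtain ⟨W', v', w', rfl, hv', hw'⟩ := hw.split
  exact hv.append ((hM _ hv').append hw')

/-- Two consecutive factors can be interchanged if the extension splits. -/
lemma IsCone.fac_swap {X Y : T} {f : X ⟶ Y} {E' W E'' : C} (hf : IsCone ι f W) {a : E' ⟶ W}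
    {b : W ⟶ E''} (hT : Triangle.mk a b (0 : E'' ⟶ E'⟦(1 : ℤ)⟧) ∈ distTriang C) :
    Fac ι [E'', E'] f := by
  obtain ⟨e, -, -⟩ := iso_of_mor₃ hT (binaryBiproductTriangle_distinguished E' E'')
  have h1 : IsCone ι f (E'' ⊞ E') := hf.iso (e ≪≫ biprod.braiding E' E'')
  exact h1.fac ⟨E', _, _, _, binaryBiproductTriangle_distinguished E'' E', Filt.single E'⟩

end

end Pool.Stab
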