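import Mathlib
import Pool.Agent.Work.MP_841263_o.Fac
import Pool.Agent.Work.MP_841263_st.Mass2

/-!
# Lists of semistable objects and nonsplit extensions
-/

open CategoryTheory CategoryTheory.Limits CategoryTheory.Pretriangulated
open scoped ZeroObject

set_option backward.isDefEq.respectTransparency false
set_option backward.defeqAttrib.useBackward true
set_option linter.unusedSectionVars false

namespace Pool.Stab

universe v u v' u'

variable {C : Type u} [Category.{v} C] [Preadditive C] [HasZeroObject C] [HasShift C ℤ]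
  [∀ n : ℤ, (shiftFunctor C n).Additive] [Pretriangulated C]

/-- A list of nonzero semistable objects, together with their phases. -/
def StabCond.SL (σ : StabCond C) (L : List (ℝ × C)) : Prop :=
  ∀ p ∈ L, σ.sl.P p.1 p.2 ∧ ¬ IsZero p.2

/-- The objects of a list. -/
def objs (L : List (ℝ × C)) : List C := L.map Prod.snd

/-- The classes of the objects of a list. -/
def clL (L : List (ℝ × C)) : Multiset (K0 C) :=
  ((L.map fun p => cls p.2 : List (K0 C)) : Multiset (K0 C))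

lemma objs_append (L M : List (ℝ × C)) : objs (L ++ M) = objs L ++ objs M := by
  simp [objs]

lemma clL_append (L M : List (ℝ × C)) : clL (L ++ M) = clL L + clL M := by
  simp [clL]

lemma clL_cons (p : ℝ × C) (L : List (ℝ × C)) : clL (p :: L) = cls p.2 ::ₘ clL L := by
  simp [clL]

lemma clL_nil : clL ([] : List (ℝ × C)) = 0 := rfl

lemma StabCond.SL.append {σ : StabCond C} {L M : List (ℝ × C)} (hL : σ.SL L) (hM : σ.SL M) :
    σ.SL (L ++ M) := by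
  intro p hp
  rcases List.mem_append.1 hp with h | h
  · exact hL p h
  · exact hM p h

lemma StabCond.SL.left {σ : StabCond C} {L M : List (ℝ × C)} (h : σ.SL (L ++ M)) : σ.SL L :=
  fun p hp => h p (List.mem_append_left _ hp)

lemma StabCond.SL.right {σ : StabCond C} {L M : List (ℝ × C)} (h : σ.SL (L ++ M)) : σ.SL M :=
  fun p hp => h p (List.mem_append_right _ hp)

lemma StabCond.SL.mem_SS {σ : StabCond C} {L : List (ℝ × C)} (h : σ.SL L) :
    ∀ x ∈ clL L, x ∈ σ.SS := by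
  intro x hx
  simp only [clL, Multiset.mem_coe, List.mem_map] at hx
  obtain ⟨p, hp, rfl⟩ := hx
  exact ⟨p.1, p.2, (h p hp).1, (h p hp).2, rfl⟩

lemma Filt.cls_eq {L : List (ℝ × C)} : ∀ {W : C} (_ : Filt (objs L) W), cls W = (clL L).sum := by
  induction L with
  | nil => intro W h; exact cls_of_isZero h
  | cons p L ih =>
    rintro W ⟨W', a, b, c, hT, hW'⟩
    rw [clL_cons, Multiset.sum_cons, cls_mk hT, ih hW']

/-- The HN filtration as a list of objects. -/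
lemma StabCond.exists_list [IsTriangulated C] (σ : StabCond C) {X : C} {l : List ℝ}
    (hX : HN σ.sl.P X l) :
    ∃ L : List (ℝ × C), σ.SL L ∧ Filt (objs L) X ∧ L.map Prod.fst = l.reverse := by
  induction hX with
  | zero h => exact ⟨[], by simp [StabCond.SL], h, rfl⟩
  | @step X Y A φ l hX hφ hA hA0 f g k hT ih =>
    obtain ⟨L, h1, h2, h3⟩ := ih
    refine ⟨L ++ [(φ, A)], h1.append ?_, ?_, ?_⟩
    · intro p hp
      rw [List.mem_singleton] at hp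
      subst hp
      exact ⟨hA, hA0⟩
    · rw [objs_append]
      exact h2.snoc hT
    · simp [h3]

/-- The mass estimate for an object with HN phases in `[φ₂, φ₁]`. -/
lemma StabCond.mass_list [IsTriangulated C] (σ : StabCond C) {φ₁ φ₂ : ℝ} (h12 : φ₂ < φ₁)
    (h12' : φ₁ < φ₂ + 1) {X : C} {L : List (ℝ × C)} (hX : Filt (objs L) X) (hL : σ.SL L)
    (hl : ∀ p ∈ L, p.1 ∈ Set.Icc φ₂ φ₁) :
      σ.mass (clL L) * Real.cos (Real.pi * (φ₁ - φ₂) / 2) ≤ σ.re ((φ₁ + φ₂) / 2) (cls X) ∧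
      ((∃ p ∈ L, p.1 ≠ φ₁ ∧ p.1 ≠ φ₂) →
        σ.mass (clL L) * Real.cos (Real.pi * (φ₁ - φ₂) / 2) <
          σ.re ((φ₁ + φ₂) / 2) (cls X)) := by
  have hpi := Real.pi_pos
  induction L generalizing X with
  | nil =>
    have h0 : IsZero X := hX
    simp [clL_nil, StabCond.mass_zero, cls_of_isZero h0]
  | cons p L ih =>
    obtain ⟨W', a, b, c, hT, hW'⟩ := hX
    obtain ⟨hle, hlt⟩ := ih hW' (fun q hq => hL q (List.mem_cons_of_mem _ hq))
      (fun q hq => hl q (List.mem_cons_of_mem _ hq))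
    obtain ⟨hA, hA0⟩ := hL p (by simp)
    have hψ := hl p (by simp)
    obtain ⟨hpos, hre, -⟩ := σ.polar ((φ₁ + φ₂) / 2) hA hA0
    have habs : |Real.pi * (p.1 - (φ₁ + φ₂) / 2)| ≤ Real.pi * (φ₁ - φ₂) / 2 := by
      rw [abs_le]
      constructor <;> nlinarith [hψ.1, hψ.2]
    have hcos : Real.cos (Real.pi * (φ₁ - φ₂) / 2) ≤
        Real.cos (Real.pi * (p.1 - (φ₁ + φ₂) / 2)) := by
      rw [← Real.cos_abs (Real.pi * (p.1 - (φ₁ + φ₂) / 2))]
      exact Real.cos_le_cos_of_nonneg_of_le_pi (abs_nonneg _) (by nlinarith) habs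
    have hA1 : ‖σ.Z (cls p.2)‖ * Real.cos (Real.pi * (φ₁ - φ₂) / 2) ≤
        σ.re ((φ₁ + φ₂) / 2) (cls p.2) := by
      rw [hre]
      exact mul_le_mul_of_nonneg_left hcos hpos.le
    refine ⟨?_, ?_⟩
    · rw [clL_cons, StabCond.mass_cons, cls_mk hT, map_add, add_mul]
      linarith
    · rintro ⟨q, hq, hq1, hq2⟩
      rw [clL_cons, StabCond.mass_cons, cls_mk hT, map_add, add_mul]
      rcases List.mem_cons.1 hq with rfl | h
      · have habs' : |Real.pi * (q.1 - (φ₁ + φ₂) / 2)| < Real.pi * (φ₁ - φ₂) / 2 := by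
          have h1 : q.1 < φ₁ := lt_of_le_of_ne hψ.2 hq1
          have h2 : φ₂ < q.1 := lt_of_le_of_ne hψ.1 (Ne.symm hq2)
          rw [abs_lt]
          constructor <;> nlinarith
        have hcos' : Real.cos (Real.pi * (φ₁ - φ₂) / 2) <
            Real.cos (Real.pi * (q.1 - (φ₁ + φ₂) / 2)) := by
          rw [← Real.cos_abs (Real.pi * (q.1 - (φ₁ + φ₂) / 2))]
          exact Real.cos_lt_cos_of_nonneg_of_le_pi (abs_nonneg _) (by nlinarith) habs'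
        have hA2 : ‖σ.Z (cls q.2)‖ * Real.cos (Real.pi * (φ₁ - φ₂) / 2) <
            σ.re ((φ₁ + φ₂) / 2) (cls q.2) := by
          rw [hre]
          exact mul_lt_mul_of_pos_left hcos' hpos
        linarith
      · have := hlt ⟨q, h, hq1, hq2⟩
        linarith

/-- Nonsplit extensions of `U` by `V`, phases `φ₂ < φ₁ < φ₂ + 1`. -/
lemma StabCond.strict_list [IsTriangulated C] (σ : StabCond C) {φ₁ φ₂ : ℝ} (h12 : φ₂ < φ₁)
    (h12' : φ₁ < φ₂ + 1) {U V G : C} (hU : σ.sl.P φ₁ U) (hV : σ.sl.P φ₂ V)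
    {a : V ⟶ G} {b : G ⟶ U} {h : U ⟶ V⟦(1 : ℤ)⟧} (hT : Triangle.mk a b h ∈ distTriang C)
    (hh : h ≠ 0) :
    ∃ L : List (ℝ × C), σ.SL L ∧ Filt (objs L) G ∧
      σ.mass (clL L) < ‖σ.Z (cls U)‖ + ‖σ.Z (cls V)‖ := by
  have hpi := Real.pi_pos
  obtain ⟨l, hl⟩ := σ.sl.exists_HN G
  have hup : σ.sl.In (Set.Ici φ₂) G := Slicing.In.ext_upper (isUpperSet_Ici _) hT
    (Slicing.in_of_P hV Set.self_mem_Ici) (Slicing.in_of_P hU (show φ₂ ≤ φ₁ from h12.le))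
  have hlow : σ.sl.In (Set.Ioi φ₁)ᶜ G := Slicing.In.ext_lower (isUpperSet_Ioi _) hT
    (Slicing.in_of_P hV (not_lt.2 h12.le)) (Slicing.in_of_P hU (by simp))
  have h1 := hl.mem_upper (isUpperSet_Ici _) hup
  have h2 := hl.mem_lower (isUpperSet_Ioi _) hlow
  have hI : ∀ ψ ∈ l, ψ ∈ Set.Icc φ₂ φ₁ := fun ψ hψ => ⟨h1 ψ hψ, not_lt.1 (h2 ψ hψ)⟩
  obtain ⟨L, hL1, hL2, hL3⟩ := σ.exists_list hl
  have hmem : ∀ p ∈ L, p.1 ∈ l := by
    intro p hp
    have : p.1 ∈ L.map Prod.fst := List.mem_map.2 ⟨p, hp, rfl⟩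
    rw [hL3] at this
    exact List.mem_reverse.1 this
  obtain ⟨-, hlt⟩ := σ.mass_list h12 h12' hL2 hL1 (fun p hp => hI _ (hmem p hp))
  refine ⟨L, hL1, hL2, ?_⟩
  have hex : ∃ p ∈ L, p.1 ≠ φ₁ ∧ p.1 ≠ φ₂ := by
    by_contra hcon
    push Not at hcon
    refine hh (σ.split_of_phases h12 h12' hU hV hT hl ?_)
    intro ψ hψ
    have hψ' : ψ ∈ L.map Prod.fst := by
      rw [hL3]; exact List.mem_reverse.2 hψ
    obtain ⟨p, hp, rfl⟩ := List.mem_map.1 hψ'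
    by_cases h : p.1 = φ₁
    · exact Or.inl h
    · exact Or.inr (hcon p hp h)
  have hcospos : 0 < Real.cos (Real.pi * (φ₁ - φ₂) / 2) :=
    Real.cos_pos_of_mem_Ioo ⟨by nlinarith, by nlinarith⟩
  have h3 := hlt hex
  have h4 : cls G = cls V + cls U := cls_mk hT
  have hUre : σ.re ((φ₁ + φ₂) / 2) (cls U) =
      ‖σ.Z (cls U)‖ * Real.cos (Real.pi * (φ₁ - φ₂) / 2) := by
    by_cases h0 : IsZero U
    · rw [cls_of_isZero h0, map_zero, map_zero, norm_zero, zero_mul]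
    · obtain ⟨-, h, -⟩ := σ.polar ((φ₁ + φ₂) / 2) hU h0
      rw [h]
      congr 2
      ring
  have hVre : σ.re ((φ₁ + φ₂) / 2) (cls V) =
      ‖σ.Z (cls V)‖ * Real.cos (Real.pi * (φ₁ - φ₂) / 2) := by
    by_cases h0 : IsZero V
    · rw [cls_of_isZero h0, map_zero, map_zero, norm_zero, zero_mul]
    · obtain ⟨-, h, -⟩ := σ.polar ((φ₁ + φ₂) / 2) hV h0
      rw [h, ← Real.cos_neg]
      congr 2
      ring
  rw [h4, map_add, hUre, hVre, ← add_mul] at h3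
  have := lt_of_mul_lt_mul_right h3 hcospos.le
  linarith

/-- Shifted copies of one element. -/
lemma StabCond.norm_shift_neg (σ : StabCond C) (X : C) :
    ‖σ.Z (cls (X⟦(-1 : ℤ)⟧))‖ = ‖σ.Z (cls X)‖ := by
  rw [cls_shift]
  simp

lemma StabCond.list_one (σ : StabCond C) {φ : ℝ} {X : C} (hX : σ.sl.P φ X) :
    ∃ L : List (ℝ × C), σ.SL L ∧ Filt (objs L) X ∧ σ.mass (clL L) = ‖σ.Z (cls X)‖ := by
  by_cases h0 : IsZero X
  · refine ⟨[], by simp [StabCond.SL], h0, ?_⟩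
    rw [clL_nil, StabCond.mass_zero, cls_of_isZero h0, map_zero, norm_zero]
  · refine ⟨[(φ, X)], ?_, Filt.single X, ?_⟩
    · intro p hp
      rw [List.mem_singleton] at hp
      subst hp
      exact ⟨hX, h0⟩
    · rw [clL_cons, clL_nil, StabCond.mass_cons, StabCond.mass_zero, add_zero]

lemma Filt.append [IsTriangulated C] {L M : List C} : ∀ {X Y Z : C} (_ : Filt L X) (_ : Filt M Z)
    {f : X ⟶ Y} {g : Y ⟶ Z} {h : Z ⟶ X⟦(1 : ℤ)⟧} (_ : Triangle.mk f g h ∈ distTriang C),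
    Filt (L ++ M) Y := by
  induction L with
  | nil =>
    intro X Y Z hX hZ f g h hT
    have := iso_of_isZero₁ hT hX
    exact hZ.iso (asIso g).symm
  | cons E L ih =>
    intro X Y Z hX hZ f g h hT
    obtain ⟨X', a, b, c, hT', hX'⟩ := hX
    obtain ⟨Y', p, q, h3⟩ := distinguished_cocone_triangle (a ≫ f)
    obtain ⟨m, n, r, hmn, -⟩ := exists_octa hT' hT h3
    exact ⟨Y', a ≫ f, p, q, h3, ih hX' hZ hmn⟩

/-- Nonsplit extensions of `U` by `V`, phases `φ₁ = φ₂ + 1`. -/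
lemma StabCond.strict_list' [IsTriangulated C] (σ : StabCond C) {φ₂ : ℝ}
    {U V G : C} (hU : σ.sl.P (φ₂ + 1) U) (hV : σ.sl.P φ₂ V)
    {a : V ⟶ G} {b : G ⟶ U} {h : U ⟶ V⟦(1 : ℤ)⟧} (hT : Triangle.mk a b h ∈ distTriang C)
    (hh : h ≠ 0) :
    ∃ L : List (ℝ × C), σ.SL L ∧ Filt (objs L) G ∧
      σ.mass (clL L) < ‖σ.Z (cls U)‖ + ‖σ.Z (cls V)‖ := by
  have hV1 : σ.sl.P (φ₂ + 1) (V⟦(1 : ℤ)⟧) := (σ.sl.shift_mem φ₂ V).1 hV
  obtain ⟨K, I, Q, i, p, d, j, q, e, hT1, hT2, hK, hI, hQ, hpj⟩ :=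
    Slicing.exists_KIQ (S := σ.sl) (t := φ₂) (Slicing.heart_of_P hU (by linarith) le_rfl)
      (Slicing.heart_of_P hV1 (by linarith) le_rfl) h
  obtain ⟨hK', hI'⟩ := σ.P_sub_quot hT1 hK hI hU
  obtain ⟨-, hQ'⟩ := σ.P_sub_quot hT2 hI hQ hV1
  have hI0 : ¬ IsZero I := by
    intro h0
    apply hh
    rw [← hpj, h0.eq_of_src j 0, comp_zero]
  -- `K → G → Q[-1]`
  obtain ⟨m, n, r, hmn, -⟩ := exists_octa (rot_mk hT1) hT2
    (by rw [hpj]; exact rot_mk (rot_mk hT))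
  have hKG : ∃ (Q' : C) (m' : K ⟶ G) (n' : G ⟶ Q') (r' : Q' ⟶ K⟦(1 : ℤ)⟧),
      Triangle.mk m' n' r' ∈ distTriang C ∧ Nonempty (Q'⟦(1 : ℤ)⟧ ≅ Q) := by
    obtain ⟨m', hm'⟩ : ∃ m' : K ⟶ G, m'⟦(1 : ℤ)⟧' = m :=
      ⟨(shiftFunctor C (1 : ℤ)).preimage m, Functor.map_preimage _ _⟩
    obtain ⟨Q', n', r', hT'⟩ := distinguished_cocone_triangle m'
    have hTs := Triangle.shift_distinguished _ hT' (1 : ℤ)
    obtain ⟨e', -⟩ := exists_iso_of_arrow_iso _ _ hTs hmn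
      (Arrow.isoMk (Iso.refl _) (-(Iso.refl _)) (by simp [hm']))
    exact ⟨Q', m', n', r', hT', ⟨Triangle.π₃.mapIso e'⟩⟩
  obtain ⟨Q', m', n', r', hT', ⟨eQ⟩⟩ := hKG
  have hQP : σ.sl.P φ₂ Q' := (σ.sl.shift_mem φ₂ Q').2 (σ.sl.iso_mem _ eQ.symm hQ')
  obtain ⟨L1, a1, b1, c1⟩ := σ.list_one hK'
  obtain ⟨L2, a2, b2, c2⟩ := σ.list_one hQP
  refine ⟨L1 ++ L2, a1.append a2, ?_, ?_⟩
  · rw [objs_append]
    exact b1.append b2 hT'
  · rw [clL_append, StabCond.mass_add, c1, c2]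
    have hIpos := (σ.polar 0 hI' hI0).1
    have e1 : ‖σ.Z (cls U)‖ = ‖σ.Z (cls K)‖ + ‖σ.Z (cls I)‖ := by
      rw [← σ.re_eq_norm hU, ← σ.re_eq_norm hK', ← σ.re_eq_norm hI', cls_mk hT1, map_add]
    have e2 : ‖σ.Z (cls (V⟦(1 : ℤ)⟧))‖ = ‖σ.Z (cls I)‖ + ‖σ.Z (cls Q)‖ := by
      rw [← σ.re_eq_norm hV1, ← σ.re_eq_norm hI', ← σ.re_eq_norm hQ', cls_mk hT2, map_add]
    have e3 : ‖σ.Z (cls (V⟦(1 : ℤ)⟧))‖ = ‖σ.Z (cls V)‖ := by
      rw [cls_shift_one, map_neg, norm_neg]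
    have e4 : ‖σ.Z (cls Q)‖ = ‖σ.Z (cls Q')‖ := by
      rw [← cls_iso eQ, cls_shift_one, map_neg, norm_neg]
    linarith

/-- **Nonsplit extensions of a semistable object by one of smaller phase** can be refined with
a smaller total mass. -/
theorem StabCond.nonsplit [IsTriangulated C] (σ : StabCond C) {φ₁ φ₂ : ℝ} (h12 : φ₂ < φ₁)
    {U V G : C} (hU : σ.sl.P φ₁ U) (hV : σ.sl.P φ₂ V)
    {a : V ⟶ G} {b : G ⟶ U} {h : U ⟶ V⟦(1 : ℤ)⟧} (hT : Triangle.mk a b h ∈ distTriang C)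
    (hh : h ≠ 0) :
    ∃ L : List (ℝ × C), σ.SL L ∧ Filt (objs L) G ∧
      σ.mass (clL L) < ‖σ.Z (cls U)‖ + ‖σ.Z (cls V)‖ := by
  rcases lt_trichotomy φ₁ (φ₂ + 1) with h1 | h1 | h1
  · exact σ.strict_list h12 h1 hU hV hT hh
  · subst h1
    exact σ.strict_list' hU hV hT hh
  · exact absurd (σ.sl.hom_zero h1 hU ((σ.sl.shift_mem φ₂ V).1 hV) h) hh

end Pool.Stab
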