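import Mathlib
import Pool.Agent.Work.MP_841263_o.Fac
import Pool.Agent.Work.MP_841263_st.Simple

/-!
# Dimensions of spaces of morphisms in a triangle
-/

open CategoryTheory CategoryTheory.Limits CategoryTheory.Pretriangulated
open scoped ZeroObject

set_option backward.isDefEq.respectTransparency false
set_option backward.defeqAttrib.useBackward true
set_option linter.unusedSectionVars false

namespace Pool.Stab

universe v u v' u'

section gen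

variable {T : Type u'} [Category.{v'} T] [Preadditive T] [HasZeroObject T] [HasShift T ℤ]
  [∀ n : ℤ, (shiftFunctor T n).Additive] [Pretriangulated T] [Linear ℂ T]

/-- The rank of the map `Hom(Y, W) → Hom(X, W)` induced by `f : X ⟶ Y`. -/
noncomputable def lk {X Y : T} (f : X ⟶ Y) (W : T) : ℕ :=
  Module.finrank ℂ (LinearMap.range (Linear.leftComp ℂ W f))

lemma lk_neg {X Y : T} (f : X ⟶ Y) (W : T) : lk (-f) W = lk f W := by
  have : Linear.leftComp ℂ W (-f) = - Linear.leftComp ℂ W f := by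
    ext a; simp
  rw [lk, lk, this, LinearMap.range_neg]

lemma ker_leftComp (W : T) {X Y Z : T} {f : X ⟶ Y} {g : Y ⟶ Z} {h : Z ⟶ X⟦(1 : ℤ)⟧}
    (hT : Triangle.mk f g h ∈ distTriang T) :
    LinearMap.ker (Linear.leftComp ℂ W f) = LinearMap.range (Linear.leftComp ℂ W g) := by
  ext a
  simp only [LinearMap.mem_ker, Linear.leftComp_apply, LinearMap.mem_range]
  constructor
  · intro ha
    obtain ⟨b, hb⟩ := Triangle.yoneda_exact₂ _ hT a ha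
    exact ⟨b, hb.symm⟩
  · rintro ⟨b, rfl⟩
    have : f ≫ g = 0 := comp_distTriang_mor_zero₁₂ _ hT
    rw [← Category.assoc, this, zero_comp]

lemma ker_rightComp (W : T) {X Y Z : T} {f : X ⟶ Y} {g : Y ⟶ Z} {h : Z ⟶ X⟦(1 : ℤ)⟧}
    (hT : Triangle.mk f g h ∈ distTriang T) :
    LinearMap.ker (Linear.rightComp ℂ W g) = LinearMap.range (Linear.rightComp ℂ W f) := by
  ext a
  simp only [LinearMap.mem_ker, Linear.rightComp_apply, LinearMap.mem_range]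
  constructor
  · intro ha
    obtain ⟨b, hb⟩ := Triangle.coyoneda_exact₂ _ hT a ha
    exact ⟨b, hb.symm⟩
  · rintro ⟨b, rfl⟩
    have : f ≫ g = 0 := comp_distTriang_mor_zero₁₂ _ hT
    rw [Category.assoc, this, comp_zero]

lemma finrank_mid (W : T) {X Y Z : T} {f : X ⟶ Y} {g : Y ⟶ Z} {h : Z ⟶ X⟦(1 : ℤ)⟧}
    (hT : Triangle.mk f g h ∈ distTriang T) [FiniteDimensional ℂ (Y ⟶ W)] :
    Module.finrank ℂ (Y ⟶ W) = lk f W + lk g W := by
  have h2 := LinearMap.finrank_range_add_finrank_ker (Linear.leftComp ℂ W f)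
  rw [ker_leftComp W hT] at h2
  rw [lk, lk, ← h2]

lemma finite_mid (W : T) {X Y Z : T} {f : X ⟶ Y} {g : Y ⟶ Z} {h : Z ⟶ X⟦(1 : ℤ)⟧}
    (hT : Triangle.mk f g h ∈ distTriang T) [FiniteDimensional ℂ (X ⟶ W)]
    [FiniteDimensional ℂ (Z ⟶ W)] : FiniteDimensional ℂ (Y ⟶ W) := by
  have h1 : Module.Finite ℂ (LinearMap.ker (Linear.leftComp ℂ W f)) := by
    rw [ker_leftComp W hT]; infer_instance
  have h2 : Module.Finite ℂ (LinearMap.range (Linear.leftComp ℂ W f)) := inferInstance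
  have h3 : Module.Finite ℂ ((Y ⟶ W) ⧸ LinearMap.ker (Linear.leftComp ℂ W f)) :=
    Module.Finite.equiv (LinearMap.quotKerEquivRange (Linear.leftComp ℂ W f)).symm
  exact Module.Finite.of_submodule_quotient (LinearMap.ker (Linear.leftComp ℂ W f))

lemma finrank_mid_le (W : T) {X Y Z : T} {f : X ⟶ Y} {g : Y ⟶ Z} {h : Z ⟶ X⟦(1 : ℤ)⟧}
    (hT : Triangle.mk f g h ∈ distTriang T) [FiniteDimensional ℂ (X ⟶ W)]
    [FiniteDimensional ℂ (Z ⟶ W)] :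
    Module.finrank ℂ (Y ⟶ W) ≤ Module.finrank ℂ (X ⟶ W) + Module.finrank ℂ (Z ⟶ W) := by
  have := finite_mid W hT
  rw [finrank_mid W hT]
  have h1 : lk f W ≤ Module.finrank ℂ (X ⟶ W) := Submodule.finrank_le _
  have h2 : lk g W ≤ Module.finrank ℂ (Z ⟶ W) := LinearMap.finrank_range_le _
  omega

lemma finrank_mid_le' (W : T) {X Y Z : T} {f : X ⟶ Y} {g : Y ⟶ Z} {h : Z ⟶ X⟦(1 : ℤ)⟧}
    (hT : Triangle.mk f g h ∈ distTriang T) [FiniteDimensional ℂ (W ⟶ X)]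
    [FiniteDimensional ℂ (W ⟶ Y)] [FiniteDimensional ℂ (W ⟶ Z)] :
    Module.finrank ℂ (W ⟶ Y) ≤ Module.finrank ℂ (W ⟶ X) + Module.finrank ℂ (W ⟶ Z) := by
  have h2 := LinearMap.finrank_range_add_finrank_ker (Linear.rightComp ℂ W g)
  rw [ker_rightComp W hT] at h2
  have h1 : Module.finrank ℂ (LinearMap.range (Linear.rightComp ℂ W g)) ≤
    Module.finrank ℂ (W ⟶ Z) := Submodule.finrank_le _
  have h3 : Module.finrank ℂ (LinearMap.range (Linear.rightComp ℂ W f)) ≤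
    Module.finrank ℂ (W ⟶ X) := LinearMap.finrank_range_le _
  omega

lemma finrank_iso_left {X X' : T} (e : X ≅ X') (W : T) :
    Module.finrank ℂ (X ⟶ W) = Module.finrank ℂ (X' ⟶ W) :=
  LinearEquiv.finrank_eq (Linear.homCongr ℂ e (Iso.refl W))

lemma finrank_iso_right {X X' : T} (e : X ≅ X') (W : T) :
    Module.finrank ℂ (W ⟶ X) = Module.finrank ℂ (W ⟶ X') :=
  LinearEquiv.finrank_eq (Linear.homCongr ℂ (Iso.refl W) e)

variable [∀ n : ℤ, (shiftFunctor T n).Linear ℂ]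

/-- `Hom(X, W') ≅ Hom(X[1], W)` if `W ≅ W'[1]`. -/
noncomputable def shEquiv (X : T) {W W' : T} (e : W ≅ W'⟦(1 : ℤ)⟧) :
    (X ⟶ W') ≃ₗ[ℂ] (X⟦(1 : ℤ)⟧ ⟶ W) :=
  (LinearEquiv.ofBijective ((shiftFunctor T (1 : ℤ)).mapLinearMap ℂ : (X ⟶ W') →ₗ[ℂ] _)
    ⟨fun _ _ h => (shiftFunctor T (1 : ℤ)).map_injective h,
      fun b => ⟨(shiftFunctor T (1 : ℤ)).preimage b,
        (shiftFunctor T (1 : ℤ)).map_preimage b⟩⟩).trans
    (Linear.homCongr ℂ (Iso.refl _) e.symm)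

lemma shEquiv_apply (X : T) {W W' : T} (e : W ≅ W'⟦(1 : ℤ)⟧) (f : X ⟶ W') :
    shEquiv X e f = f⟦(1 : ℤ)⟧' ≫ e.inv := by
  simp [shEquiv, Linear.homCongr_apply]

lemma lk_shift {X Y : T} (f : X ⟶ Y) {W W' : T} (e : W ≅ W'⟦(1 : ℤ)⟧) :
    lk (f⟦(1 : ℤ)⟧') W = lk f W' := by
  have h1 : (shEquiv X e : (X ⟶ W') →ₗ[ℂ] _) ∘ₗ Linear.leftComp ℂ W' f =
      Linear.leftComp ℂ W (f⟦(1 : ℤ)⟧') ∘ₗ (shEquiv Y e : (Y ⟶ W') →ₗ[ℂ] _) := by
    ext a
    simp [shEquiv_apply]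
  have h2 : LinearMap.range (Linear.leftComp ℂ W (f⟦(1 : ℤ)⟧')) =
      (LinearMap.range (Linear.leftComp ℂ W' f)).map (shEquiv X e : (X ⟶ W') →ₗ[ℂ] _) := by
    rw [← LinearMap.range_comp, h1, LinearMap.range_comp, LinearEquiv.range, Submodule.map_top]
  rw [lk, lk, h2]
  exact LinearEquiv.finrank_map_eq (shEquiv X e) _

end gen

section pair

variable {C : Type u} [Category.{v} C] [Preadditive C] [HasZeroObject C] [HasShift C ℤ]
  [∀ n : ℤ, (shiftFunctor C n).Additive] [Pretriangulated C]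
  {T : Type u'} [Category.{v'} T] [Preadditive T] [HasZeroObject T] [HasShift T ℤ]
  [∀ n : ℤ, (shiftFunctor T n).Additive] [Pretriangulated T]
  (ι : C ⥤ T) [ι.CommShift ℤ] [ι.IsTriangulated] [ι.Full] [ι.Faithful]

/-- `ι(A[b]) ≅ ι(A[a])[1]` for `b = a + 1`. -/
noncomputable def shIso (A : C) {a b : ℤ} (h : a + 1 = b) :
    ι.obj (A⟦b⟧) ≅ (ι.obj (A⟦a⟧))⟦(1 : ℤ)⟧ :=
  ι.mapIso ((shiftFunctorAdd' C a 1 b h).app A) ≪≫ (ι.commShiftIso (1 : ℤ)).app (A⟦a⟧)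

/-- `ι(A) ≅ ι(A[-1])[1]`. -/
noncomputable def shIso' (A : C) : ι.obj A ≅ (ι.obj (A⟦(-1 : ℤ)⟧))⟦(1 : ℤ)⟧ :=
  ι.mapIso ((shiftFunctorCompIsoId C (-1 : ℤ) 1 (by simp)).app A).symm ≪≫
    (ι.commShiftIso (1 : ℤ)).app (A⟦(-1 : ℤ)⟧)

variable [Linear ℂ C] [Linear ℂ T] [ι.Linear ℂ]

/-- `Hom(X, Y) ≅ Hom(ι X, ι Y)`. -/
noncomputable def mapEquiv (X Y : C) : (X ⟶ Y) ≃ₗ[ℂ] (ι.obj X ⟶ ι.obj Y) :=
  LinearEquiv.ofBijective (ι.mapLinearMap ℂ) ⟨fun _ _ h => ι.map_injective h,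
    fun b => ⟨ι.preimage b, ι.map_preimage b⟩⟩

lemma finrank_map (X Y : C) :
    Module.finrank ℂ (ι.obj X ⟶ ι.obj Y) = Module.finrank ℂ (X ⟶ Y) :=
  (LinearEquiv.finrank_eq (mapEquiv ι X Y)).symm

lemma finite_map (hK : IsK3 C) (X Y : C) : FiniteDimensional ℂ (ι.obj X ⟶ ι.obj Y) := by
  have := hK.homFinite X Y
  exact Module.Finite.equiv (mapEquiv ι X Y)

end pair

end Pool.Stab
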