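import Mathlib
import Pool.Agent.Work.MP_841263_o.Dims

/-!
# Admissible endomorphisms and their rotations
-/

open CategoryTheory CategoryTheory.Limits CategoryTheory.Pretriangulated
open scoped ZeroObject

set_option backward.isDefEq.respectTransparency false
set_option backward.defeqAttrib.useBackward true
set_option linter.unusedSectionVars false

namespace Pool.Stab

universe v u v' u'

variable {C : Type u} [Category.{v} C] [Preadditive C] [HasZeroObject C] [HasShift C ℤ]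
  [∀ n : ℤ, (shiftFunctor C n).Additive] [Pretriangulated C] [Linear ℂ C]
  {T : Type u'} [Category.{v'} T] [Preadditive T] [HasZeroObject T] [HasShift T ℤ]
  [∀ n : ℤ, (shiftFunctor T n).Additive] [Pretriangulated T] [Linear ℂ T]

section

variable {ι : C ⥤ T}

lemma deg_support {G : T} {A : C} (h : {n : ℤ | ∃ f : G ⟶ ι.obj (A⟦n⟧), f ≠ 0}.Finite) :
    {n : ℤ | Module.finrank ℂ (G ⟶ ι.obj (A⟦n⟧)) ≠ 0}.Finite := by
  refine h.subset ?_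
  intro n hn
  by_contra hcon
  apply hn
  refine finrank_of_forall_zero fun f => ?_
  by_contra hf
  exact hcon ⟨f, hf⟩

lemma support_mul {t : ℤ → ℕ} (h : {n : ℤ | t n ≠ 0}.Finite) :
    (Function.support fun n : ℤ => (n.negOnePow : ℤ) * (t n : ℤ)).Finite := by
  refine h.subset ?_
  intro n hn hcon
  apply hn
  simp [hcon]

/-- Alternating sums along a long exact sequence. -/
lemma alternating {a b c α β γ : ℤ → ℕ} (h1 : ∀ n, b n = β n + α n) (h2 : ∀ n, c n = α n + γ n)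
    (h3 : ∀ n, a (n - 1) = γ n + β (n - 1)) (ha : {n : ℤ | a n ≠ 0}.Finite)
    (hc : {n : ℤ | c n ≠ 0}.Finite) :
    ∑ᶠ n : ℤ, (n.negOnePow : ℤ) * (b n : ℤ) =
      ∑ᶠ n : ℤ, (n.negOnePow : ℤ) * (a n : ℤ) + ∑ᶠ n : ℤ, (n.negOnePow : ℤ) * (c n : ℤ) := by
  have hα : {n : ℤ | α n ≠ 0}.Finite := hc.subset (fun n hn => by
    have := h2 n; simp only [Set.mem_ofPred_eq] at hn ⊢; omega)
  have hγ : {n : ℤ | γ n ≠ 0}.Finite := hc.subset (fun n hn => by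
    have := h2 n; simp only [Set.mem_ofPred_eq] at hn ⊢; omega)
  have hβ : {n : ℤ | β n ≠ 0}.Finite := ha.subset (fun n hn => by
    have := h3 (n + 1)
    simp only [Set.mem_ofPred_eq, add_sub_cancel_right] at hn this ⊢; omega)
  have hγ' : {n : ℤ | γ (n + 1) ≠ 0}.Finite := by
    have : {n : ℤ | γ (n + 1) ≠ 0} = (· + 1) ⁻¹' {n : ℤ | γ n ≠ 0} := rfl
    rw [this]
    exact hγ.preimage (add_left_injective _).injOn
  have sa := support_mul hα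
  have sb := support_mul hβ
  have sc := support_mul hγ
  have sc' := support_mul hγ'
  have e1 : ∀ n : ℤ, (n.negOnePow : ℤ) * (b n : ℤ) =
      (n.negOnePow : ℤ) * (β n : ℤ) + (n.negOnePow : ℤ) * (α n : ℤ) := by
    intro n; rw [h1 n]; push_cast; ring
  have e2 : ∀ n : ℤ, (n.negOnePow : ℤ) * (c n : ℤ) =
      (n.negOnePow : ℤ) * (α n : ℤ) + (n.negOnePow : ℤ) * (γ n : ℤ) := by
    intro n; rw [h2 n]; push_cast; ring
  have e3 : ∀ n : ℤ, (n.negOnePow : ℤ) * (a n : ℤ) =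
      (n.negOnePow : ℤ) * (γ (n + 1) : ℤ) + (n.negOnePow : ℤ) * (β n : ℤ) := by
    intro n
    have := h3 (n + 1)
    rw [add_sub_cancel_right] at this
    rw [this]; push_cast; ring
  have e4 : ∑ᶠ n : ℤ, (n.negOnePow : ℤ) * (γ (n + 1) : ℤ) =
      - ∑ᶠ n : ℤ, (n.negOnePow : ℤ) * (γ n : ℤ) := by
    rw [← finsum_comp_equiv (f := fun m : ℤ => (m.negOnePow : ℤ) * (γ m : ℤ))
      (Equiv.addRight (1 : ℤ)), ← finsum_neg_distrib]
    refine finsum_congr fun n => ?_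
    simp only [Equiv.coe_addRight, Int.negOnePow_succ]
    push_cast
    ring
  simp_rw [e1, e2, e3]
  rw [finsum_add_distrib sb sa, finsum_add_distrib sc' sb, finsum_add_distrib sa sc, e4]
  ring

variable [ι.CommShift ℤ] [ι.IsTriangulated] [ι.Full] [ι.Faithful] [ι.Linear ℂ]
  [∀ n : ℤ, (shiftFunctor T n).Linear ℂ]

/-- Additivity of the Euler characteristic in the first variable. -/
lemma degChar_cone (hK : IsK3 C) {G G' : T} {v : G ⟶ G'} {E : C} (hv : IsCone ι v E)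
    (hfin : ∀ A : C, FiniteDimensional ℂ (G ⟶ ι.obj A))
    (hbdd : ∀ A : C, {n : ℤ | ∃ f : G ⟶ ι.obj (A⟦n⟧), f ≠ 0}.Finite) (A : C) :
    degChar ι G' A = degChar ι G A + eulerChar E A := by
  obtain ⟨g, h, hT⟩ := hv
  have hE : eulerChar E A = ∑ᶠ n : ℤ, (n.negOnePow : ℤ) *
      (Module.finrank ℂ (ι.obj E ⟶ ι.obj (A⟦n⟧)) : ℤ) := by
    rw [eulerChar]
    refine finsum_congr fun n => ?_
    rw [finrank_map]
  rw [hE, degChar, degChar]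
  refine alternating (a := fun n => Module.finrank ℂ (G ⟶ ι.obj (A⟦n⟧)))
    (b := fun n => Module.finrank ℂ (G' ⟶ ι.obj (A⟦n⟧)))
    (c := fun n => Module.finrank ℂ (ι.obj E ⟶ ι.obj (A⟦n⟧)))
    (α := fun n => lk g (ι.obj (A⟦n⟧))) (β := fun n => lk v (ι.obj (A⟦n⟧)))
    (γ := fun n => lk h (ι.obj (A⟦n⟧))) ?_ ?_ ?_ (deg_support (hbdd A)) ?_
  · intro n
    have := hfin (A⟦n⟧)
    have := finite_map ι hK E (A⟦n⟧)
    have := finite_mid (ι.obj (A⟦n⟧)) hT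
    exact finrank_mid _ hT
  · intro n
    have := finite_map ι hK E (A⟦n⟧)
    exact finrank_mid _ (rot_mk hT)
  · intro n
    have := hfin (A⟦n - 1⟧)
    have e := shIso ι A (a := n - 1) (b := n) (by ring)
    have : FiniteDimensional ℂ (G⟦(1 : ℤ)⟧ ⟶ ι.obj (A⟦n⟧)) :=
      Module.Finite.equiv (shEquiv G e)
    have h1 := finrank_mid (ι.obj (A⟦n⟧)) (rot_mk (rot_mk hT))
    rw [lk_neg, lk_shift v e] at h1
    rw [← h1]
    exact LinearEquiv.finrank_eq (shEquiv G e)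
  · refine (support_finite hK E A).subset ?_
    intro n hn
    rw [Set.mem_ofPred_eq, finrank_map] at hn
    exact hn

lemma iter_cone [IsTriangulated T] {G : T} {τ : G ⟶ G} {B : C} (h : IsCone ι τ B) (n : ℕ) :
    ∃ E : C, IsCone ι (iter τ n) E := by
  induction n with
  | zero => exact ⟨0, isCone_of_isIso (𝟙 G) (isZero_zero C)⟩
  | succ n ih =>
    obtain ⟨E, hE⟩ := ih
    obtain ⟨W, -, -, -, -, hW⟩ := h.merge hE
    exact ⟨W, hW⟩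

/-- Bound for the morphisms from a cone. -/
lemma finrank_cone_le {X Y : T} {f : X ⟶ Y} {E : C} (hf : IsCone ι f E) (A : C)
    [FiniteDimensional ℂ (X ⟶ ι.obj (A⟦(-1 : ℤ)⟧))] [FiniteDimensional ℂ (Y ⟶ ι.obj A)] :
    Module.finrank ℂ (E ⟶ A) ≤ Module.finrank ℂ (Y ⟶ ι.obj A) +
      Module.finrank ℂ (X ⟶ ι.obj (A⟦(-1 : ℤ)⟧)) := by
  obtain ⟨g, h, hT⟩ := hf
  have e := shIso' ι A
  have : FiniteDimensional ℂ (X⟦(1 : ℤ)⟧ ⟶ ι.obj A) := Module.Finite.equiv (shEquiv X e)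
  have h1 := finrank_mid_le (ι.obj A) (rot_mk hT)
  rw [finrank_map] at h1
  rwa [(LinearEquiv.finrank_eq (shEquiv X e) : _ = Module.finrank ℂ (X⟦(1 : ℤ)⟧ ⟶ ι.obj A))]

variable [∀ n : ℤ, (shiftFunctor C n).Linear ℂ]

/-- The growth condition after a rotation. -/
lemma growth_rot [IsTriangulated T] (hK : IsK3 C) {G G' : T} {v : G ⟶ G'} {u : G' ⟶ G}
    {E F : C} (hv : IsCone ι v E) (hu : IsCone ι u F)
    (hfin : ∀ A : C, FiniteDimensional ℂ (G ⟶ ι.obj A))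
    (hfin' : ∀ A : C, FiniteDimensional ℂ (G' ⟶ ι.obj A))
    (h : ∃ c : ℕ, ∀ (n : ℕ) (E : C), IsCone ι (iter (v ≫ u) n) E →
      Module.finrank ℂ (E ⟶ E⟦(1 : ℤ)⟧) ≤ 2 * n + c) :
    ∃ c : ℕ, ∀ (n : ℕ) (E : C), IsCone ι (iter (u ≫ v) n) E →
      Module.finrank ℂ (E ⟶ E⟦(1 : ℤ)⟧) ≤ 2 * n + c := by
  obtain ⟨c, hc⟩ := h
  have hH := hK.homFinite
  -- bounds
  set β : C → ℕ := fun A => Module.finrank ℂ (G ⟶ ι.obj A) +
    Module.finrank ℂ (G' ⟶ ι.obj (A⟦(-1 : ℤ)⟧)) with hβ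
  set β' : C → ℕ := fun A => Module.finrank ℂ (G ⟶ ι.obj A) +
    Module.finrank ℂ (G ⟶ ι.obj (A⟦(-1 : ℤ)⟧)) with hβ'
  refine ⟨c + β' ((E⟦(1 : ℤ)⟧)⟦(1 : ℤ)⟧) + β (E⟦(2 : ℤ)⟧) + β (E⟦(1 : ℤ)⟧) + β (E⟦(1 : ℤ)⟧) +
    Module.finrank ℂ (E ⟶ E⟦(1 : ℤ)⟧), ?_⟩
  intro n W hW
  cases n with
  | zero =>
    obtain ⟨e⟩ := hW.unique (isCone_of_isIso (ι := ι) (𝟙 G') (isZero_zero C))
    have h0 : IsZero W := (isZero_zero C).of_iso e
    have : Module.finrank ℂ (W ⟶ W⟦(1 : ℤ)⟧) = 0 :=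
      finrank_of_forall_zero fun f => h0.eq_of_src _ _
    rw [this]
    exact Nat.zero_le _
  | succ n =>
    obtain ⟨B, -, -, -, -, hB⟩ := hv.merge hu
    obtain ⟨In, hIn⟩ := iter_cone hB n
    obtain ⟨Cn, -, -, -, -, hCn⟩ := hu.merge hIn
    obtain ⟨E1, a1, b1, c1, hT1, hE1⟩ := hv.merge hCn
    obtain ⟨E2, a2, b2, c2, hT2, hE2⟩ := hCn.merge hv
    have hE1' : IsCone ι (iter (v ≫ u) (n + 1)) E1 := by
      rw [iter_succ, Category.assoc]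
      exact hE1
    have hgr := hc (n + 1) E1 hE1'
    rw [iter_rot] at hW
    obtain ⟨eW⟩ := hW.unique hE2
    have eq1 : Module.finrank ℂ (W ⟶ W⟦(1 : ℤ)⟧) = Module.finrank ℂ (E2 ⟶ E2⟦(1 : ℤ)⟧) :=
      LinearEquiv.finrank_eq (Linear.homCongr ℂ eW ((shiftFunctor C (1 : ℤ)).mapIso eW))
    rw [eq1]
    have hT2s := Triangle.shift_distinguished _ hT2 (1 : ℤ)
    have hT2s' : Triangle.mk ((1 : ℤ).negOnePow • a2⟦(1 : ℤ)⟧') ((1 : ℤ).negOnePow • b2⟦(1 : ℤ)⟧')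
      ((1 : ℤ).negOnePow • c2⟦(1 : ℤ)⟧' ≫ (shiftFunctorComm C 1 1).hom.app _) ∈
        distTriang C := hT2s
    have i1 : Module.finrank ℂ (E2 ⟶ E2⟦(1 : ℤ)⟧) ≤ Module.finrank ℂ (Cn ⟶ E2⟦(1 : ℤ)⟧) +
      Module.finrank ℂ (E ⟶ E2⟦(1 : ℤ)⟧) := finrank_mid_le _ hT2
    have i2 : Module.finrank ℂ (Cn ⟶ E2⟦(1 : ℤ)⟧) ≤ Module.finrank ℂ (Cn ⟶ Cn⟦(1 : ℤ)⟧) +
      Module.finrank ℂ (Cn ⟶ E⟦(1 : ℤ)⟧) := finrank_mid_le' _ hT2s'
    have i3 : Module.finrank ℂ (E ⟶ E2⟦(1 : ℤ)⟧) ≤ Module.finrank ℂ (E ⟶ Cn⟦(1 : ℤ)⟧) +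
      Module.finrank ℂ (E ⟶ E⟦(1 : ℤ)⟧) := finrank_mid_le' _ hT2s'
    -- the triangle `E1 → Cn → E[1]`
    have hT1r := rot_mk hT1
    have i4 : Module.finrank ℂ (Cn ⟶ Cn⟦(1 : ℤ)⟧) ≤ Module.finrank ℂ (E1 ⟶ Cn⟦(1 : ℤ)⟧) +
      Module.finrank ℂ (E⟦(1 : ℤ)⟧ ⟶ Cn⟦(1 : ℤ)⟧) := finrank_mid_le _ hT1r
    rw [finrank_shift_both] at i4
    have hT1rs := Triangle.shift_distinguished _ hT1r (1 : ℤ)
    have hT1rs' : Triangle.mk ((1 : ℤ).negOnePow • b1⟦(1 : ℤ)⟧') ((1 : ℤ).negOnePow • c1⟦(1 : ℤ)⟧')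
      ((1 : ℤ).negOnePow • (-a1⟦(1 : ℤ)⟧')⟦(1 : ℤ)⟧' ≫ (shiftFunctorComm C 1 1).hom.app _) ∈
        distTriang C := hT1rs
    have i5 : Module.finrank ℂ (E1 ⟶ Cn⟦(1 : ℤ)⟧) ≤ Module.finrank ℂ (E1 ⟶ E1⟦(1 : ℤ)⟧) +
      Module.finrank ℂ (E1 ⟶ (E⟦(1 : ℤ)⟧)⟦(1 : ℤ)⟧) := finrank_mid_le' _ hT1rs'
    -- uniform bounds
    have j1 : ∀ A : C, Module.finrank ℂ (Cn ⟶ A) ≤ β A := fun A => finrank_cone_le hCn A
    have j2 : ∀ A : C, Module.finrank ℂ (E1 ⟶ A) ≤ β' A := fun A => finrank_cone_le hE1 A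
    have k1 : Module.finrank ℂ (E ⟶ Cn) ≤ β (E⟦(2 : ℤ)⟧) := by
      rw [hK.serre E Cn]; exact j1 _
    have k2 : Module.finrank ℂ (E ⟶ Cn⟦(1 : ℤ)⟧) ≤ β (E⟦(1 : ℤ)⟧) := by
      rw [finrank_duality hK E Cn 1]; exact j1 _
    have k3 := j1 (E⟦(1 : ℤ)⟧)
    have k4 := j2 ((E⟦(1 : ℤ)⟧)⟦(1 : ℤ)⟧)
    omega

/-- **Rotation.** -/
theorem Param.rot [IsTriangulated T] (hK : IsK3 C) {G G' : T} {v : G ⟶ G'} {u : G' ⟶ G} {E F : C}
    (hv : IsCone ι v E) (hu : IsCone ι u F) (h : Param ι (v ≫ u)) : Param ι (u ≫ v) := by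
  have hfin' : ∀ A : C, FiniteDimensional ℂ (G' ⟶ ι.obj A) := by
    intro A
    obtain ⟨g, k, hT⟩ := hv
    have := h.fin A
    have := finite_map ι hK E A
    exact finite_mid (ι.obj A) hT
  refine ⟨hfin', ?_, ?_, ?_, growth_rot hK hv hu h.fin hfin' h.growth⟩
  · intro A
    obtain ⟨g, k, hT⟩ := hv
    refine ((h.bdd A).union (hK.bounded E A)).subset ?_
    rintro n ⟨f, hf⟩
    by_contra hcon
    simp only [Set.mem_union, Set.mem_ofPred_eq, not_or, not_exists, not_not] at hcon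
    refine hf (hom_zero_of_ext₁ hT hcon.1 (fun a => ?_) f)
    rw [← ι.map_preimage a, hcon.2 (ι.preimage a), ι.map_zero]
  · intro A f
    obtain ⟨m, hm⟩ := h.nil A (v ≫ f)
    refine ⟨m + 1, ?_⟩
    rw [iter_rot, Category.assoc, Category.assoc, hm, comp_zero]
  · obtain ⟨W, -, -, -, -, hW⟩ := hu.merge hv
    exact ⟨W, hW⟩

end

end Pool.Stab
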