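import Mathlib
import Pool.Agent.Work.MP_841263_o.Param
import Pool.Agent.Work.MP_841263_o.Pair

/-!
# Factorisations of least mass
-/

open CategoryTheory CategoryTheory.Limits CategoryTheory.Pretriangulated
open scoped ZeroObject

set_option backward.isDefEq.respectTransparency false
set_option backward.defeqAttrib.useBackward true
set_option linter.unusedSectionVars false

namespace Pool.Stab

universe v u v' u'

variable {C : Type u} [Category.{v} C] [Preadditive C] [HasZeroObject C] [HasShift C ℤ]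
  [∀ n : ℤ, (shiftFunctor C n).Additive] [Pretriangulated C] [Linear ℂ C]
  [∀ n : ℤ, (shiftFunctor C n).Linear ℂ]
  {T : Type u'} [Category.{v'} T] [Preadditive T] [HasZeroObject T] [HasShift T ℤ]
  [∀ n : ℤ, (shiftFunctor T n).Additive] [Pretriangulated T] [Linear ℂ T]
  [∀ n : ℤ, (shiftFunctor T n).Linear ℂ]
  {ι : C ⥤ T} [ι.CommShift ℤ] [ι.IsTriangulated] [ι.Full] [ι.Faithful] [ι.Linear ℂ]

/-- An admissible endomorphism `τ` of an object `G` (a modification of `G₀`) with a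
factorisation `L` whose cones are semistable objects of `C`. -/
structure FacCfg (ι : C ⥤ T) (hK : IsK3 C) (σ : StabCond C) (G₀ : T) (b₀ : K0 C)
    (L : List (ℝ × C)) {G : T} (τ : G ⟶ G) : Prop where
  adm : Param ι τ
  fac : Fac ι (objs L) τ
  sl : σ.SL L
  deg : (∀ A : C, cls A ∈ radical (eulerForm hK) → degChar ι G A = degChar ι G₀ A) ∧
    ∀ B : C, IsCone ι τ B → cls B = b₀

/-- `m` is the least mass and `k` the least length for this mass. -/
def Least (ι : C ⥤ T) (hK : IsK3 C) (σ : StabCond C) (G₀ : T) (b₀ : K0 C) (m : ℝ) (k : ℕ) : Prop :=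
  ∀ (L : List (ℝ × C)) {G : T} (τ : G ⟶ G), FacCfg ι hK σ G₀ b₀ L τ →
    m ≤ σ.mass (clL L) ∧ (σ.mass (clL L) = m → k ≤ L.length)

/-- A factorisation of mass `m` and length `k`. -/
structure Opt (ι : C ⥤ T) (hK : IsK3 C) (σ : StabCond C) (G₀ : T) (b₀ : K0 C) (m : ℝ) (k : ℕ)
    (L : List (ℝ × C)) {G : T} (τ : G ⟶ G) : Prop where
  cfg : FacCfg ι hK σ G₀ b₀ L τ
  mass : σ.mass (clL L) = m
  len : L.length = k

variable {hK : IsK3 C} {σ : StabCond C} {G₀ : T} {b₀ : K0 C}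

lemma clL_perm {L L' : List (ℝ × C)} (h : L.Perm L') : clL L = clL L' := by
  rw [clL, clL, Multiset.coe_eq_coe]
  exact h.map _

lemma clL_card (L : List (ℝ × C)) : (clL L).card = L.length := by simp [clL]

section min

variable [Module.Finite ℤ (K0 C)] [Module.Free ℤ (K0 C)] [IsTriangulated C]

lemma exists_least {L₀ : List (ℝ × C)} {G : T} {τ : G ⟶ G} (h : FacCfg ι hK σ G₀ b₀ L₀ τ) :
    ∃ (m : ℝ) (k : ℕ), Least ι hK σ G₀ b₀ m k ∧ ∃ (L : List (ℝ × C)) (G : T) (τ : G ⟶ G),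
      Opt ι hK σ G₀ b₀ m k L τ := by
  set S : Set (Multiset (K0 C)) := {s | (∀ x ∈ s, x ∈ σ.SS) ∧ σ.mass s ≤ σ.mass (clL L₀)} ∩
    {s | ∃ (L : List (ℝ × C)) (G : T) (τ : G ⟶ G), FacCfg ι hK σ G₀ b₀ L τ ∧ clL L = s} with hS
  have hSfin : S.Finite := (σ.finite_configs _).inter_of_left _
  obtain ⟨s, hsS, hmin⟩ := Set.exists_min_image S
    (fun s => toLex (σ.mass s, s.card)) hSfin ⟨clL L₀, ⟨h.sl.mem_SS, le_rfl⟩, L₀, G, τ, h, rfl⟩
  obtain ⟨L, G', τ', hL, rfl⟩ := hsS.2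
  refine ⟨σ.mass (clL L), L.length, ?_, L, G', τ', hL, rfl, rfl⟩
  intro L' G'' τ'' hL'
  by_cases hle : σ.mass (clL L') ≤ σ.mass (clL L₀)
  · have h1 := hmin (clL L') ⟨⟨hL'.sl.mem_SS, hle⟩, L', G'', τ'', hL', rfl⟩
    rw [Prod.Lex.toLex_le_toLex] at h1
    rcases h1 with h1 | h1
    · have h2 : σ.mass (clL L) < σ.mass (clL L') := h1
      exact ⟨h2.le, fun h3 => absurd h3 h2.ne'⟩
    · have h2 : σ.mass (clL L) = σ.mass (clL L') := h1.1
      have h3 : (clL L).card ≤ (clL L').card := h1.2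
      rw [clL_card, clL_card] at h3
      exact ⟨h2.le, fun _ => h3⟩
  · push Not at hle
    have h1 : σ.mass (clL L) < σ.mass (clL L') := hsS.1.2.trans_lt hle
    exact ⟨h1.le, fun h3 => absurd h3 h1.ne'⟩

end min

variable [IsTriangulated T]

/-- Rotation of a factorisation. -/
lemma FacCfg.rot {M N : List (ℝ × C)} {G : T} {τ : G ⟶ G} (h : FacCfg ι hK σ G₀ b₀ (M ++ N) τ) :
    ∃ (G' : T) (v : G ⟶ G') (u : G' ⟶ G), v ≫ u = τ ∧ Fac ι (objs M) v ∧ Fac ι (objs N) u ∧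
      FacCfg ι hK σ G₀ b₀ (N ++ M) (u ≫ v) := by
  obtain ⟨hadm, hfac, hsl, hdeg⟩ := h
  rw [objs_append] at hfac
  obtain ⟨G', v, u, rfl, hv, hu⟩ := hfac.split
  obtain ⟨E, hE, -⟩ := hv.cone
  obtain ⟨F, hF, -⟩ := hu.cone
  refine ⟨G', v, u, rfl, hv, hu, hadm.rot hK hE hF, ?_, hsl.right.append hsl.left, ?_, ?_⟩
  · rw [objs_append]; exact hu.append hv
  · intro A hA
    rw [degChar_cone hK hE hadm.fin hadm.bdd A, hdeg.1 A hA, ← eulerForm_cls hK, eulerForm_symm,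
      hA (cls E), add_zero]
  · intro B hB
    obtain ⟨W1, a1, b1, c1, hT1, hW1⟩ := hE.merge hF
    obtain ⟨W2, a2, b2, c2, hT2, hW2⟩ := hF.merge hE
    obtain ⟨e⟩ := hB.unique hW2
    rw [cls_iso e, cls_mk hT2, add_comm, ← cls_mk hT1]
    exact hdeg.2 W1 hW1

lemma Opt.rot {m : ℝ} {k : ℕ} {M N : List (ℝ × C)} {G : T} {τ : G ⟶ G}
    (h : Opt ι hK σ G₀ b₀ m k (M ++ N) τ) :
    ∃ (G' : T) (v : G ⟶ G') (u : G' ⟶ G), v ≫ u = τ ∧ Fac ι (objs M) v ∧ Fac ι (objs N) u ∧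
      Opt ι hK σ G₀ b₀ m k (N ++ M) (u ≫ v) := by
  obtain ⟨hc, hm, hl⟩ := h
  obtain ⟨G', v, u, h1, h2, h3, h4⟩ := hc.rot
  refine ⟨G', v, u, h1, h2, h3, h4, ?_, ?_⟩
  · rw [← hm, clL_perm List.perm_append_comm]
  · rw [← hl, List.length_append, List.length_append, add_comm]

variable [IsTriangulated C]

/-- Two neighbours with increasing phases can be interchanged. -/
lemma Opt.swap {m : ℝ} {k : ℕ} (hmin : Least ι hK σ G₀ b₀ m k) {A B : List (ℝ × C)} {p q : ℝ × C}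
    {G : T} {τ : G ⟶ G} (h : Opt ι hK σ G₀ b₀ m k (A ++ p :: q :: B) τ) (hpq : p.1 < q.1) :
    Opt ι hK σ G₀ b₀ m k (A ++ q :: p :: B) τ := by
  obtain ⟨⟨hadm, hfac, hsl, hdeg⟩, hm, hl⟩ := h
  have hperm : (A ++ p :: q :: B).Perm (A ++ q :: p :: B) :=
    (List.Perm.swap q p B).append_left A
  have hfac' : Fac ι (objs A ++ ([p.2, q.2] ++ objs B)) τ := by
    simpa [objs] using hfac
  obtain ⟨X, v, w, rfl, hv, hw⟩ := hfac'.split
  obtain ⟨Y, g, w', rfl, hg, hw'⟩ := hw.split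
  obtain ⟨Z, g1, g2, rfl, hg1, hg2⟩ := hg
  rw [fac_single] at hg2
  obtain ⟨W, a, b, c, hT, hW⟩ := hg1.merge hg2
  have hp := hsl p (by simp)
  have hq := hsl q (by simp)
  by_cases hc : c = 0
  · subst hc
    have h1 := hW.fac_swap hT
    refine ⟨⟨hadm, ?_, fun r hr => hsl r (hperm.mem_iff.2 hr), hdeg⟩, ?_, ?_⟩
    · have := hv.append (h1.append hw')
      simpa [objs] using this
    · rw [← hm, clL_perm hperm]
    · rw [← hl, hperm.length_eq]
  · exfalso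
    obtain ⟨L, hL1, hL2, hL3⟩ := σ.nonsplit hpq hq.1 hp.1 hT hc
    have hnew : FacCfg ι hK σ G₀ b₀ (A ++ (L ++ B)) (v ≫ (g1 ≫ g2) ≫ w') := by
      refine ⟨hadm, ?_, ?_, hdeg⟩
      · rw [objs_append, objs_append]
        exact hv.append ((hW.fac hL2).append hw')
      · exact hsl.left.append (hL1.append (fun r hr => hsl r (by simp [hr])))
    have h2 := (hmin _ _ hnew).1
    rw [← hm] at h2
    simp only [clL_append, clL_cons, StabCond.mass_add, StabCond.mass_cons] at h2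
    linarith

/-- Neighbours have different phases. -/
lemma Opt.ne {m : ℝ} {k : ℕ} (hmin : Least ι hK σ G₀ b₀ m k) {A B : List (ℝ × C)} {p q : ℝ × C}
    {G : T} {τ : G ⟶ G} (h : Opt ι hK σ G₀ b₀ m k (A ++ p :: q :: B) τ) : p.1 ≠ q.1 := by
  intro hpq
  obtain ⟨⟨hadm, hfac, hsl, hdeg⟩, hm, hl⟩ := h
  have hfac' : Fac ι (objs A ++ ([p.2, q.2] ++ objs B)) τ := by
    simpa [objs] using hfac
  obtain ⟨X, v, w, rfl, hv, hw⟩ := hfac'.split
  obtain ⟨Y, g, w', rfl, hg, hw'⟩ := hw.split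
  obtain ⟨Z, g1, g2, rfl, hg1, hg2⟩ := hg
  rw [fac_single] at hg2
  obtain ⟨W, a, b, c, hT, hW⟩ := hg1.merge hg2
  have hp := hsl p (by simp)
  have hq := hsl q (by simp)
  have hq1 : σ.sl.P p.1 q.2 := by rw [hpq]; exact hq.1
  have hWP : σ.sl.P p.1 W := by
    refine Slicing.In.P_of_singleton ?_
    have h1 : σ.sl.In (Set.Ici p.1) W := Slicing.In.ext_upper (isUpperSet_Ici _) hT
      (Slicing.in_of_P hp.1 Set.self_mem_Ici) (Slicing.in_of_P hq1 Set.self_mem_Ici)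
    have h2 : σ.sl.In (Set.Ioi p.1)ᶜ W := Slicing.In.ext_lower (isUpperSet_Ioi _) hT
      (Slicing.in_of_P hp.1 (by simp)) (Slicing.in_of_P hq1 (by simp))
    refine (Slicing.In.inter (isUpperSet_Ici _) (isUpperSet_Ioi _) h1 h2).mono ?_
    rintro x ⟨hx1, hx2⟩
    exact le_antisymm (not_lt.1 hx2) hx1
  have hmass : ‖σ.Z (cls W)‖ = ‖σ.Z (cls p.2)‖ + ‖σ.Z (cls q.2)‖ := by
    rw [← σ.re_eq_norm hWP, ← σ.re_eq_norm hp.1, ← σ.re_eq_norm hq1, cls_mk hT, map_add]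
  have hW0 : ¬ IsZero W := by
    intro h0
    rw [cls_of_isZero h0, map_zero, norm_zero] at hmass
    have h1 := (σ.polar 0 hp.1 hp.2).1
    have h2 := norm_nonneg (σ.Z (cls q.2))
    linarith
  have hnew : FacCfg ι hK σ G₀ b₀ (A ++ ([(p.1, W)] ++ B)) (v ≫ (g1 ≫ g2) ≫ w') := by
    refine ⟨hadm, ?_, ?_, hdeg⟩
    · rw [objs_append, objs_append]
      exact hv.append ((fac_single.2 hW).append hw')
    · refine hsl.left.append (StabCond.SL.append ?_ (fun r hr => hsl r (by simp [hr])))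
      intro r hr
      rw [List.mem_singleton] at hr
      subst hr
      exact ⟨hWP, hW0⟩
  have h2 := (hmin _ _ hnew).2 (by
    rw [← hm]
    simp only [clL_append, clL_cons, clL_nil, StabCond.mass_add, StabCond.mass_cons,
      StabCond.mass_zero]
    rw [hmass]; ring)
  rw [← hl] at h2
  simp only [List.length_append, List.length_cons, List.length_nil] at h2
  omega

/-- Insertion of an element into a sorted list. -/
lemma Opt.insert {m : ℝ} {k : ℕ} (hmin : Least ι hK σ G₀ b₀ m k) {G : T} {τ : G ⟶ G}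
    (p : ℝ × C) (M : List (ℝ × C)) : ∀ (A : List (ℝ × C)),
    Opt ι hK σ G₀ b₀ m k (A ++ p :: M) τ → M.Pairwise (fun x y => y.1 < x.1) →
    ∃ M' : List (ℝ × C), M'.Perm (p :: M) ∧ M'.Pairwise (fun x y => y.1 < x.1) ∧
      Opt ι hK σ G₀ b₀ m k (A ++ M') τ := by
  induction M with
  | nil =>
    intro A h _
    exact ⟨[p], List.Perm.refl _, List.pairwise_singleton _ _, h⟩
  | cons q M ih =>
    intro A h hM
    rcases lt_trichotomy p.1 q.1 with h1 | h1 | h1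
    · have h2 := h.swap hmin h1
      have h3 : Opt ι hK σ G₀ b₀ m k ((A ++ [q]) ++ p :: M) τ := by simpa using h2
      obtain ⟨M', a1, a2, a3⟩ := ih (A ++ [q]) h3 (List.pairwise_cons.1 hM).2
      refine ⟨q :: M', ?_, ?_, by simpa using a3⟩
      · exact (List.Perm.cons q a1).trans (List.Perm.swap p q M)
      · rw [List.pairwise_cons]
        refine ⟨?_, a2⟩
        intro r hr
        rcases List.mem_cons.1 (a1.mem_iff.1 hr) with rfl | h4
        · exact h1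
        · exact (List.pairwise_cons.1 hM).1 r h4
    · exact absurd h1 (h.ne hmin)
    · refine ⟨p :: q :: M, List.Perm.refl _, ?_, h⟩
      rw [List.pairwise_cons]
      refine ⟨?_, hM⟩
      intro r hr
      rcases List.mem_cons.1 hr with rfl | h4
      · exact h1
      · exact ((List.pairwise_cons.1 hM).1 r h4).trans h1

/-- An optimal factorisation can be sorted: the phases are strictly decreasing. -/
lemma Opt.sort {m : ℝ} {k : ℕ} (hmin : Least ι hK σ G₀ b₀ m k) {G : T} {τ : G ⟶ G}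
    (L : List (ℝ × C)) : ∀ (A : List (ℝ × C)), Opt ι hK σ G₀ b₀ m k (A ++ L) τ →
    ∃ L' : List (ℝ × C), L'.Perm L ∧ L'.Pairwise (fun x y => y.1 < x.1) ∧
      Opt ι hK σ G₀ b₀ m k (A ++ L') τ := by
  induction L with
  | nil =>
    intro A h
    exact ⟨[], List.Perm.refl _, List.Pairwise.nil, h⟩
  | cons p L ih =>
    intro A h
    have h1 : Opt ι hK σ G₀ b₀ m k ((A ++ [p]) ++ L) τ := by simpa using h
    obtain ⟨L1, a1, a2, a3⟩ := ih (A ++ [p]) h1
    have h2 : Opt ι hK σ G₀ b₀ m k (A ++ p :: L1) τ := by simpa using a3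
    obtain ⟨L2, b1, b2, b3⟩ := h2.insert hmin p L1 A a2
    exact ⟨L2, b1.trans (List.Perm.cons p a1), b2, b3⟩

/-- Moving an element of small phase to the right. -/
lemma Opt.move_right {m : ℝ} {k : ℕ} (hmin : Least ι hK σ G₀ b₀ m k) {G : T} {τ : G ⟶ G}
    (q : ℝ × C) (M : List (ℝ × C)) : ∀ (A : List (ℝ × C)), (∀ p ∈ M, q.1 < p.1) →
    Opt ι hK σ G₀ b₀ m k (A ++ q :: M) τ → Opt ι hK σ G₀ b₀ m k (A ++ (M ++ [q])) τ := by
  induction M with
  | nil => intro A _ h; simpa using h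
  | cons p M ih =>
    intro A hM h
    have h1 := h.swap hmin (hM p (by simp))
    have h2 : Opt ι hK σ G₀ b₀ m k ((A ++ [p]) ++ q :: M) τ := by simpa using h1
    have h3 := ih (A ++ [p]) (fun r hr => hM r (by simp [hr])) h2
    simpa using h3

/-- Moving an element of large phase to the left. -/
lemma Opt.move_left {m : ℝ} {k : ℕ} (hmin : Least ι hK σ G₀ b₀ m k) {G : T} {τ : G ⟶ G}
    (p : ℝ × C) (M : List (ℝ × C)) : ∀ (B : List (ℝ × C)), (∀ q ∈ M, q.1 < p.1) →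
    Opt ι hK σ G₀ b₀ m k (M ++ p :: B) τ → Opt ι hK σ G₀ b₀ m k (p :: (M ++ B)) τ := by
  induction M using List.reverseRecOn with
  | nil => intro B _ h; simpa using h
  | append_singleton M q ih =>
    intro B hM h
    have h0 : Opt ι hK σ G₀ b₀ m k (M ++ q :: p :: B) τ := by simpa using h
    have h1 := h0.swap hmin (hM q (by simp))
    have h3 := ih (q :: B) (fun r hr => hM r (by simp [hr])) h1
    simpa using h3

/-- One step of the chain at the bottom. -/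
lemma Opt.bot_step {m : ℝ} {k : ℕ} (hmin : Least ι hK σ G₀ b₀ m k) {G : T} {τ : G ⟶ G}
    {q : ℝ × C} {M : List (ℝ × C)} (hM : ∀ p ∈ M, q.1 < p.1)
    (h : Opt ι hK σ G₀ b₀ m k (M ++ [q]) τ) :
    ∃ (G' : T) (a : G ⟶ G') (b : G' ⟶ G), a ≫ b = τ ∧ Fac ι (objs M) a ∧ IsCone ι b q.2 ∧
      Opt ι hK σ G₀ b₀ m k (M ++ [q]) (b ≫ a) := by
  obtain ⟨G', v, u, h1, h2, h3, h4⟩ := h.rot
  refine ⟨G', v, u, h1, h2, fac_single.1 h3, ?_⟩
  have := Opt.move_right hmin q M [] hM (by simpa using h4)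
  simpa using this

/-- One step of the chain at the top. -/
lemma Opt.top_step {m : ℝ} {k : ℕ} (hmin : Least ι hK σ G₀ b₀ m k) {G : T} {τ : G ⟶ G}
    {p : ℝ × C} {R : List (ℝ × C)} (hR : ∀ q ∈ R, q.1 < p.1)
    (h : Opt ι hK σ G₀ b₀ m k (p :: R) τ) :
    ∃ (G' : T) (c : G ⟶ G') (d : G' ⟶ G), c ≫ d = τ ∧ IsCone ι c p.2 ∧ Fac ι (objs R) d ∧
      Opt ι hK σ G₀ b₀ m k (p :: R) (d ≫ c) := by
  have h' : Opt ι hK σ G₀ b₀ m k ([p] ++ R) τ := h
  obtain ⟨G', v, u, h1, h2, h3, h4⟩ := h'.rot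
  refine ⟨G', v, u, h1, fac_single.1 h2, h3, ?_⟩
  have := Opt.move_left hmin p R [] hR h4
  simpa using this

end Pool.Stab
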