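import Mathlib
import Pool.Agent.Work.MP_841263_o.Min

/-!
# Vanishing of morphisms from an admissible object to semistable objects
-/

open CategoryTheory CategoryTheory.Limits CategoryTheory.Pretriangulated
open scoped ZeroObject

set_option backward.isDefEq.respectTransparency false
set_option backward.defeqAttrib.useBackward true
set_option linter.unusedSectionVars false

namespace Pool.Stab

universe v u v' u'

section linalg

lemma ker_growth {V : Type*} [AddCommGroup V] [Module ℂ V] [FiniteDimensional ℂ V]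
    (t : V →ₗ[ℂ] V) (n : ℕ) (h : Module.finrank ℂ (LinearMap.ker (t ^ n)) <
      Module.finrank ℂ (LinearMap.ker (t ^ (n + 1)))) :
    n + 1 ≤ Module.finrank ℂ (LinearMap.ker (t ^ (n + 1))) := by
  have hmono : ∀ k, LinearMap.ker (t ^ k) ≤ LinearMap.ker (t ^ (k + 1)) := by
    intro k x hx
    rw [LinearMap.mem_ker] at hx ⊢
    rw [pow_succ', Module.End.mul_apply, hx, map_zero]
  have hstrict : ∀ k, k ≤ n → LinearMap.ker (t ^ k) < LinearMap.ker (t ^ (k + 1)) := by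
    intro k hk
    refine lt_of_le_of_ne (hmono k) ?_
    intro heq
    have hconst : ∀ j, LinearMap.ker (t ^ k) = LinearMap.ker (t ^ (k + j)) :=
      fun j => by
        induction j with
        | zero => rfl
        | succ j ih =>
          refine le_antisymm (ih.le.trans (hmono _)) ?_
          intro x hx
          rw [LinearMap.mem_ker, ← add_assoc, pow_succ, Module.End.mul_apply] at hx
          have h1 : t x ∈ LinearMap.ker (t ^ (k + j)) := hx
          rw [← ih, LinearMap.mem_ker, ← Module.End.mul_apply, ← pow_succ] at h1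
          rw [heq]
          exact h1
    obtain ⟨j, rfl⟩ := Nat.exists_eq_add_of_le hk
    have h1 := hconst j
    have h2 := hconst (j + 1)
    rw [← add_assoc] at h2
    rw [← h1, ← h2] at h
    exact lt_irrefl _ h
  have key : ∀ k, k ≤ n + 1 → k ≤ Module.finrank ℂ (LinearMap.ker (t ^ k)) := by
    intro k
    induction k with
    | zero => intro _; exact Nat.zero_le _
    | succ k ih =>
      intro hk
      have h1 := ih (by omega)
      have h2 := Submodule.finrank_lt_finrank_of_lt (hstrict k (by omega))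
      omega
  exact key (n + 1) le_rfl

lemma eq_zero_of_nil_surj {V : Type*} [AddCommGroup V] [Module ℂ V] [FiniteDimensional ℂ V]
    (t : V →ₗ[ℂ] V) (hs : Function.Surjective t) (hn : ∀ x, ∃ m : ℕ, (t ^ m) x = 0) (x : V) :
    x = 0 := by
  obtain ⟨m, hm⟩ := hn x
  have hi : Function.Injective t := LinearMap.injective_iff_surjective.2 hs
  have him : Function.Injective (t ^ m) := by
    rw [Module.End.coe_pow]
    exact hi.iterate m
  exact him (by rw [hm, map_zero])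

end linalg

variable {C : Type u} [Category.{v} C] [Preadditive C] [HasZeroObject C] [HasShift C ℤ]
  [∀ n : ℤ, (shiftFunctor C n).Additive] [Pretriangulated C] [Linear ℂ C]
  [∀ n : ℤ, (shiftFunctor C n).Linear ℂ]
  {T : Type u'} [Category.{v'} T] [Preadditive T] [HasZeroObject T] [HasShift T ℤ]
  [∀ n : ℤ, (shiftFunctor T n).Additive] [Pretriangulated T] [Linear ℂ T]
  [∀ n : ℤ, (shiftFunctor T n).Linear ℂ]
  {ι : C ⥤ T} [ι.CommShift ℤ] [ι.IsTriangulated] [ι.Full] [ι.Faithful] [ι.Linear ℂ]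

lemma leftComp_iter {G : T} (τ : G ⟶ G) (W : T) (n : ℕ) :
    (Linear.leftComp ℂ W (iter τ n) : (G ⟶ W) →ₗ[ℂ] (G ⟶ W)) =
      (Linear.leftComp ℂ W τ : (G ⟶ W) →ₗ[ℂ] (G ⟶ W)) ^ n := by
  induction n with
  | zero => ext x; simp [iter]
  | succ n ih =>
    ext x
    rw [pow_succ', Module.End.mul_apply, ← ih]
    simp [iter_succ]

/-- Morphisms out of `(ι X)[-1]`. -/
lemma map_neg_zero {X W : C} (h : ∀ f : X⟦(-1 : ℤ)⟧ ⟶ W, f = 0)
    (f : (ι.obj X)⟦(-1 : ℤ)⟧ ⟶ ι.obj W) : f = 0 := by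
  have e := (ι.commShiftIso (-1 : ℤ)).app X
  have h1 : e.hom ≫ f = 0 := by
    rw [← ι.map_preimage (e.hom ≫ f), h (ι.preimage (e.hom ≫ f)), ι.map_zero]
  rw [← cancel_epi e.hom, h1, comp_zero]

/-- Morphisms out of `(ι X)[1]`. -/
lemma map_pos_zero {X W : C} (h : ∀ f : X⟦(1 : ℤ)⟧ ⟶ W, f = 0)
    (f : (ι.obj X)⟦(1 : ℤ)⟧ ⟶ ι.obj W) : f = 0 := by
  have e := (ι.commShiftIso (1 : ℤ)).app X
  have h1 : e.hom ≫ f = 0 := by
    rw [← ι.map_preimage (e.hom ≫ f), h (ι.preimage (e.hom ≫ f)), ι.map_zero]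
  rw [← cancel_epi e.hom, h1, comp_zero]

lemma map_zero' {X W : C} (h : ∀ f : X ⟶ W, f = 0) (f : ι.obj X ⟶ ι.obj W) : f = 0 := by
  rw [← ι.map_preimage f, h (ι.preimage f), ι.map_zero]

/-- If `Hom(B[1], Z) = 0`, then `Hom(G[1], Z) = 0`. -/
lemma Param.shift_zero {G : T} {τ : G ⟶ G} (h : Param ι τ) {B Z : C} (hB : IsCone ι τ B)
    (hBZ : ∀ f : B⟦(1 : ℤ)⟧ ⟶ Z, f = 0) (f : G⟦(1 : ℤ)⟧ ⟶ ι.obj Z) : f = 0 := by
  obtain ⟨g, k, hT⟩ := hB
  have hinj : ∀ a : G⟦(1 : ℤ)⟧ ⟶ ι.obj Z, τ⟦(1 : ℤ)⟧' ≫ a = 0 → a = 0 := by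
    intro a ha
    have hT3 := rot_mk (rot_mk (rot_mk hT))
    obtain ⟨b, hb⟩ := Triangle.yoneda_exact₂ _ hT3 a
      (show (-τ⟦(1 : ℤ)⟧') ≫ a = 0 by rw [Preadditive.neg_comp, ha, neg_zero])
    have hb' : a = (-g⟦(1 : ℤ)⟧') ≫ b := hb
    rw [hb', map_pos_zero hBZ b, comp_zero]
  have e := shIso' ι Z
  obtain ⟨f0, hf0⟩ := (shEquiv G e).surjective f
  obtain ⟨m, hm⟩ := h.nil _ f0
  have h1 : (iter τ m)⟦(1 : ℤ)⟧' ≫ f = 0 := by
    rw [← hf0, shEquiv_apply, ← Category.assoc, ← Functor.map_comp, hm, Functor.map_zero,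
      zero_comp]
  clear hm
  induction m with
  | zero =>
    simpa [iter] using h1
  | succ m ih =>
    refine ih (hinj _ ?_)
    rw [← Category.assoc, ← Functor.map_comp, ← iter_succ]
    exact h1

/-- If `Hom(B[-1], Z) = 0`, then `τ` acts onto on `Hom(G, Z)`, hence `Hom(G, Z) = 0`. -/
lemma Param.zero_of_onto {G : T} {τ : G ⟶ G} (h : Param ι τ) {B Z : C} (hB : IsCone ι τ B)
    (hBZ : ∀ f : B⟦(-1 : ℤ)⟧ ⟶ Z, f = 0) (f : G ⟶ ι.obj Z) : f = 0 := by
  obtain ⟨g, k, hT⟩ := hB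
  have := h.fin Z
  refine eq_zero_of_nil_surj (Linear.leftComp ℂ (ι.obj Z) τ : (G ⟶ ι.obj Z) →ₗ[ℂ] _) ?_ ?_ f
  · intro a
    obtain ⟨a', c', hinv⟩ := exists_invrot hT
    obtain ⟨b, hb⟩ := Triangle.yoneda_exact₂ _ hinv a (map_neg_zero hBZ _)
    exact ⟨b, hb.symm⟩
  · intro a
    obtain ⟨m, hm⟩ := h.nil Z a
    refine ⟨m, ?_⟩
    rw [← leftComp_iter]
    exact hm

/-- If `Hom(B, Z) = 0` then `τ` is injective on `Hom(G, Z)`, so this space vanishes. -/
lemma Param.zero_of_inj {G : T} {τ : G ⟶ G} (h : Param ι τ) {B Z : C} (hB : IsCone ι τ B)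
    (hBZ : ∀ f : B ⟶ Z, f = 0) (f : G ⟶ ι.obj Z) : f = 0 := by
  obtain ⟨g, k, hT⟩ := hB
  have hinj : ∀ a : G ⟶ ι.obj Z, τ ≫ a = 0 → a = 0 := by
    intro a ha
    obtain ⟨b, hb⟩ := Triangle.yoneda_exact₂ _ hT a ha
    have hb' : a = g ≫ b := hb
    rw [hb', map_zero' hBZ b, comp_zero]
  obtain ⟨m, hm⟩ := h.nil Z f
  induction m with
  | zero => simpa [iter] using hm
  | succ m ih =>
    refine ih (hinj _ ?_)
    rw [← Category.assoc, ← iter_succ]
    exact hm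

end Pool.Stab
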