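import Mathlib
import Pool.Agent.Work.MP_841263_o.Vanish

/-!
# The chain at the bottom
-/

open CategoryTheory CategoryTheory.Limits CategoryTheory.Pretriangulated
open scoped ZeroObject

set_option backward.isDefEq.respectTransparency false
set_option backward.defeqAttrib.useBackward true
set_option linter.unusedSectionVars false

namespace Pool.Stab

universe v u v' u'

section C

variable {C : Type u} [Category.{v} C] [Preadditive C] [HasZeroObject C] [HasShift C ℤ]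
  [∀ n : ℤ, (shiftFunctor C n).Additive] [Pretriangulated C] [IsTriangulated C]

lemma Slicing.P_ext {S : Slicing C} {φ : ℝ} {X Y Z : C} {f : X ⟶ Y} {g : Y ⟶ Z}
    {h : Z ⟶ X⟦(1 : ℤ)⟧} (hT : Triangle.mk f g h ∈ distTriang C) (hX : S.P φ X)
    (hZ : S.P φ Z) : S.P φ Y := by
  refine Slicing.In.P_of_singleton ?_
  have h1 : S.In (Set.Ici φ) Y := Slicing.In.ext_upper (isUpperSet_Ici _) hT
    (Slicing.in_of_P hX Set.self_mem_Ici) (Slicing.in_of_P hZ Set.self_mem_Ici)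
  have h2 : S.In (Set.Ioi φ)ᶜ Y := Slicing.In.ext_lower (isUpperSet_Ioi _) hT
    (Slicing.in_of_P hX (by simp)) (Slicing.in_of_P hZ (by simp))
  refine (Slicing.In.inter (isUpperSet_Ici _) (isUpperSet_Ioi _) h1 h2).mono ?_
  rintro x ⟨hx1, hx2⟩
  exact le_antisymm (not_lt.1 hx2) hx1

lemma Filt.upper {σ : StabCond C} {U : Set ℝ} (hU : IsUpperSet U) {L : List (ℝ × C)} :
    ∀ {W : C} (_ : Filt (objs L) W) (_ : σ.SL L) (_ : ∀ p ∈ L, p.1 ∈ U), σ.sl.In U W := by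
  induction L with
  | nil => intro W h _ _; exact Slicing.in_of_isZero U h
  | cons p L ih =>
    rintro W ⟨W', a, b, c, hT, hW'⟩ hL hl
    exact Slicing.In.ext_upper hU hT (Slicing.in_of_P (hL p (by simp)).1 (hl p (by simp)))
      (ih hW' (fun q hq => hL q (by simp [hq])) (fun q hq => hl q (by simp [hq])))

lemma Filt.lower {σ : StabCond C} {U : Set ℝ} (hU : IsUpperSet U) {L : List (ℝ × C)} :
    ∀ {W : C} (_ : Filt (objs L) W) (_ : σ.SL L) (_ : ∀ p ∈ L, p.1 ∈ Uᶜ),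
      σ.sl.In Uᶜ W := by
  induction L with
  | nil => intro W h _ _; exact Slicing.in_of_isZero Uᶜ h
  | cons p L ih =>
    rintro W ⟨W', a, b, c, hT, hW'⟩ hL hl
    exact Slicing.In.ext_lower hU hT (Slicing.in_of_P (hL p (by simp)).1 (hl p (by simp)))
      (ih hW' (fun q hq => hL q (by simp [hq])) (fun q hq => hl q (by simp [hq])))

variable [Linear ℂ C] [∀ n : ℤ, (shiftFunctor C n).Linear ℂ]

/-- Strictness at the bottom. -/
lemma strict_bot {S : Slicing C} (hK : IsK3 C) {φ : ℝ} {A Q' Q : C} {u : A ⟶ Q'} {r : Q' ⟶ Q}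
    {w : Q ⟶ A⟦(1 : ℤ)⟧} (hT : Triangle.mk u r w ∈ distTriang C) (hA : S.P φ A)
    (hQ' : S.P φ Q') (hQ : S.P φ Q) (hA0 : ¬ IsZero A) :
    Module.finrank ℂ (Q ⟶ Q') < Module.finrank ℂ (Q' ⟶ Q') := by
  have h1 := hK.homFinite Q Q'
  have h2 := hK.homFinite Q' Q'
  have hA1 := (S.shift_mem φ A).1 hA
  have hinj : Function.Injective (Linear.leftComp ℂ Q' r : (Q ⟶ Q') →ₗ[ℂ] _) := by
    rw [injective_iff_map_eq_zero]
    intro a ha
    obtain ⟨b, hb⟩ := Triangle.yoneda_exact₃ _ hT a ha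
    have hb' : a = w ≫ b := hb
    rw [hb', S.hom_zero (by linarith) hA1 hQ' b, comp_zero]
  refine lt_of_le_of_ne (LinearMap.finrank_le_finrank_of_injective hinj) ?_
  intro heq
  have hsurj := (LinearMap.injective_iff_surjective_of_finrank_eq_finrank heq).1 hinj
  obtain ⟨s, hs⟩ := hsurj (𝟙 Q')
  have hs' : r ≫ s = 𝟙 Q' := hs
  have hu : u = 0 := by
    have h3 : u ≫ r = 0 := comp_distTriang_mor_zero₁₂ _ hT
    rw [← Category.comp_id u, ← hs', ← Category.assoc, h3, zero_comp]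
  obtain ⟨a, c, hinv⟩ := exists_invrot hT
  apply hA0
  rw [IsZero.iff_id_eq_zero]
  obtain ⟨x, hx⟩ := Triangle.coyoneda_exact₂ _ hinv (𝟙 A) (show 𝟙 A ≫ u = 0 by rw [hu, comp_zero])
  have hx' : 𝟙 A = x ≫ a := hx
  rw [hx', S.hom_zero (by linarith) hA (S.P_shift_neg_one φ Q hQ) x, zero_comp]

/-- Strictness at the top. -/
lemma strict_top {S : Slicing C} (hK : IsK3 C) {φ : ℝ} {A Q' Q : C} {i : Q ⟶ Q'} {r : Q' ⟶ A}
    {w : A ⟶ Q⟦(1 : ℤ)⟧} (hT : Triangle.mk i r w ∈ distTriang C) (hA : S.P φ A)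
    (hQ' : S.P φ Q') (hQ : S.P φ Q) (hA0 : ¬ IsZero A) :
    Module.finrank ℂ (Q' ⟶ Q) < Module.finrank ℂ (Q' ⟶ Q') := by
  have h1 := hK.homFinite Q' Q
  have h2 := hK.homFinite Q' Q'
  have hinj : Function.Injective (Linear.rightComp ℂ Q' i : (Q' ⟶ Q) →ₗ[ℂ] _) := by
    rw [injective_iff_map_eq_zero]
    intro a ha
    obtain ⟨y, c, hinv⟩ := exists_invrot hT
    obtain ⟨x, hx⟩ := Triangle.coyoneda_exact₂ _ hinv a ha
    have hx' : a = x ≫ y := hx
    rw [hx', S.hom_zero (by linarith) hQ' (S.P_shift_neg_one φ A hA) x, zero_comp]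
  refine lt_of_le_of_ne (LinearMap.finrank_le_finrank_of_injective hinj) ?_
  intro heq
  have hsurj := (LinearMap.injective_iff_surjective_of_finrank_eq_finrank heq).1 hinj
  obtain ⟨s, hs⟩ := hsurj (𝟙 Q')
  have hs' : s ≫ i = 𝟙 Q' := hs
  have hr : r = 0 := by
    have h3 : i ≫ r = 0 := comp_distTriang_mor_zero₁₂ _ hT
    rw [← Category.id_comp r, ← hs', Category.assoc, h3, comp_zero]
  apply hA0
  refine isZero₃_of_mor₂ hT hr ?_
  intro b
  exact S.hom_zero (by linarith) ((S.shift_mem φ Q).1 hQ) hA b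

end C

section lin

variable {T : Type u'} [Category.{v'} T] [Preadditive T] [Linear ℂ T]

lemma leftComp_comp (W : T) {X Y Z : T} (f : X ⟶ Y) (g : Y ⟶ Z) :
    Linear.leftComp ℂ W (f ≫ g) = Linear.leftComp ℂ W f ∘ₗ Linear.leftComp ℂ W g := by
  ext a
  simp

lemma lk_comp_surj (W : T) {X Y Z : T} (f : X ⟶ Y) (g : Y ⟶ Z)
    (hg : ∀ a : Y ⟶ W, ∃ b : Z ⟶ W, g ≫ b = a) : lk (f ≫ g) W = lk f W := by
  have h1 : LinearMap.range (Linear.leftComp ℂ W g) = ⊤ := by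
    rw [LinearMap.range_eq_top]
    exact hg
  rw [lk, lk, leftComp_comp, LinearMap.range_comp, h1, Submodule.map_top]

lemma lk_comp_inj (W : T) {X Y Z : T} (f : X ⟶ Y) (g : Y ⟶ Z)
    (hf : ∀ a : Y ⟶ W, f ≫ a = 0 → a = 0) : lk (f ≫ g) W = lk g W := by
  have h1 : Function.Injective (Linear.leftComp ℂ W f) := by
    rw [injective_iff_map_eq_zero]
    exact hf
  rw [lk, lk, leftComp_comp, LinearMap.range_comp]
  exact (Submodule.equivMapOfInjective _ h1 _).finrank_eq.symm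

lemma finrank_ker_iter {G : T} (τ : G ⟶ G) (W : T) (n : ℕ) [FiniteDimensional ℂ (G ⟶ W)] :
    Module.finrank ℂ (LinearMap.ker ((Linear.leftComp ℂ W τ : (G ⟶ W) →ₗ[ℂ] (G ⟶ W)) ^ n)) +
      lk (iter τ n) W = Module.finrank ℂ (G ⟶ W) := by
  have h := LinearMap.finrank_range_add_finrank_ker
    ((Linear.leftComp ℂ W τ : (G ⟶ W) →ₗ[ℂ] (G ⟶ W)) ^ n)
  have h1 : (Linear.leftComp ℂ W (iter τ n) : (G ⟶ W) →ₗ[ℂ] (G ⟶ W)) =
      (Linear.leftComp ℂ W τ : (G ⟶ W) →ₗ[ℂ] (G ⟶ W)) ^ n := by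
    induction n with
    | zero => ext x; simp [iter]
    | succ n ih =>
      ext x
      have ih' := ih (LinearMap.finrank_range_add_finrank_ker _)
      rw [pow_succ', Module.End.mul_apply, ← ih']
      show (τ ≫ iter τ n) ≫ x = τ ≫ iter τ n ≫ x
      rw [Category.assoc]
  rw [lk, h1]
  omega

end lin

end Pool.Stab
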