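import Mathlib
import Pool.Agent.Work.MP_841263_o.Bot

/-!
# The chains at the bottom and at the top
-/

open CategoryTheory CategoryTheory.Limits CategoryTheory.Pretriangulated
open scoped ZeroObject

set_option backward.isDefEq.respectTransparency false
set_option backward.defeqAttrib.useBackward true
set_option linter.unusedSectionVars false

namespace Pool.Stab

universe v u v' u'

variable {C : Type u} [Category.{v} C] [Preadditive C] [HasZeroObject C] [HasShift C ℤ]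
  [∀ n : ℤ, (shiftFunctor C n).Additive] [Pretriangulated C] [Linear ℂ C]
  [∀ n : ℤ, (shiftFunctor C n).Linear ℂ]
  {T : Type u'} [Category.{v'} T] [Preadditive T] [HasZeroObject T] [HasShift T ℤ]
  [∀ n : ℤ, (shiftFunctor T n).Additive] [Pretriangulated T] [Linear ℂ T]
  [∀ n : ℤ, (shiftFunctor T n).Linear ℂ]
  {ι : C ⥤ T} [ι.CommShift ℤ] [ι.IsTriangulated] [ι.Full] [ι.Faithful] [ι.Linear ℂ]
  {hK : IsK3 C} {σ : StabCond C} {G₀ : T} {b₀ : K0 C}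

/-- The data at the bottom after `n` steps. -/
structure BotD (ι : C ⥤ T) (hK : IsK3 C) (σ : StabCond C) (G₀ : T) (b₀ : K0 C) (m : ℝ) (k : ℕ)
    (M : List (ℝ × C)) (q : ℝ × C) {G : T} (τ : G ⟶ G) (n : ℕ) (B Q : C) : Prop where
  data : ∃ (G' : T) (τ' : G' ⟶ G') (S : G ⟶ G') (J : G' ⟶ G), S ≫ J = iter τ n ∧
    S ≫ τ' = τ ≫ S ∧ IsCone ι J Q ∧ IsCone ι S B ∧ Opt ι hK σ G₀ b₀ m k (M ++ [q]) τ'
  memQ : σ.sl.P q.1 Q
  memB : σ.sl.In (Set.Ioi q.1) B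
  clsQ : cls Q = n • cls q.2
  bound : Module.finrank ℂ (G ⟶ ι.obj Q) ≤ n * Module.finrank ℂ (G ⟶ ι.obj q.2)

/-- The data at the top after `n` steps. -/
structure TopD (ι : C ⥤ T) (hK : IsK3 C) (σ : StabCond C) (G₀ : T) (b₀ : K0 C) (m : ℝ) (k : ℕ)
    (p : ℝ × C) (R : List (ℝ × C)) {G : T} (τ : G ⟶ G) (n : ℕ) (U B : C) : Prop where
  data : ∃ (G' : T) (τ' : G' ⟶ G') (S : G ⟶ G') (J : G' ⟶ G), S ≫ J = iter τ n ∧
    S ≫ τ' = τ ≫ S ∧ IsCone ι S U ∧ IsCone ι J B ∧ Opt ι hK σ G₀ b₀ m k (p :: R) τ'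
  memU : σ.sl.P p.1 U
  memB : σ.sl.In (Set.Ici p.1)ᶜ B
  clsU : cls U = n • cls p.2
  bound : Module.finrank ℂ (G ⟶ ι.obj (U⟦(1 : ℤ)⟧)) ≤
    n * Module.finrank ℂ (G ⟶ ι.obj (p.2⟦(1 : ℤ)⟧))

variable {m : ℝ} {k : ℕ}

lemma Slicing.P_zero_obj (S : Slicing C) (φ : ℝ) {X : C} (hX : IsZero X) : S.P φ X :=
  S.iso_mem φ hX.isoZero.symm (S.zero_mem φ)

lemma BotD.zero {M : List (ℝ × C)} {q : ℝ × C} {G : T} {τ : G ⟶ G}
    (h : Opt ι hK σ G₀ b₀ m k (M ++ [q]) τ) : BotD ι hK σ G₀ b₀ m k M q τ 0 (0 : C) (0 : C) := by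
  refine ⟨⟨G, τ, 𝟙 G, 𝟙 G, ?_, by simp, isCone_of_isIso (𝟙 G) (isZero_zero C),
    isCone_of_isIso (𝟙 G) (isZero_zero C), h⟩, σ.sl.zero_mem _,
    Slicing.in_of_isZero _ (isZero_zero C), ?_, ?_⟩
  · simp [iter]
  · rw [cls_of_isZero (isZero_zero C), zero_smul]
  · rw [zero_mul]
    refine le_of_eq (finrank_of_forall_zero fun f => ?_)
    exact ((isZero_map_iff ι (0 : C)).2 (isZero_zero C)).eq_of_tgt _ _

lemma TopD.zero {p : ℝ × C} {R : List (ℝ × C)} {G : T} {τ : G ⟶ G}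
    (h : Opt ι hK σ G₀ b₀ m k (p :: R) τ) : TopD ι hK σ G₀ b₀ m k p R τ 0 (0 : C) (0 : C) := by
  refine ⟨⟨G, τ, 𝟙 G, 𝟙 G, ?_, by simp, isCone_of_isIso (𝟙 G) (isZero_zero C),
    isCone_of_isIso (𝟙 G) (isZero_zero C), h⟩, σ.sl.zero_mem _,
    Slicing.in_of_isZero _ (isZero_zero C), ?_, ?_⟩
  · simp [iter]
  · rw [cls_of_isZero (isZero_zero C), zero_smul]
  · rw [zero_mul]
    refine le_of_eq (finrank_of_forall_zero fun f => ?_)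
    exact ((isZero_map_iff ι _).2 ((isZero_shift_iff (0 : C) 1).2 (isZero_zero C))).eq_of_tgt _ _

variable [IsTriangulated C] [IsTriangulated T]

lemma BotD.succ (hmin : Least ι hK σ G₀ b₀ m k) {M : List (ℝ × C)} {q : ℝ × C}
    (hM : ∀ p ∈ M, q.1 < p.1) {G : T} {τ : G ⟶ G} (hfin : ∀ A : C, FiniteDimensional ℂ (G ⟶ ι.obj A))
    {n : ℕ} {B Q : C} (h : BotD ι hK σ G₀ b₀ m k M q τ n B Q) :
    ∃ (B' Q' : C) (u : q.2 ⟶ Q') (r : Q' ⟶ Q) (w : Q ⟶ q.2⟦(1 : ℤ)⟧),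
      Triangle.mk u r w ∈ distTriang C ∧ BotD ι hK σ G₀ b₀ m k M q τ (n + 1) B' Q' := by
  obtain ⟨⟨G', τ', S, J, h1, h2, hJ, hS, hopt⟩, hQ, hB, hcls, hbd⟩ := h
  have hsl := hopt.cfg.sl
  have hq := (hsl q (by simp)).1
  obtain ⟨G'', a, b, hab, ha, hb, hopt'⟩ := hopt.bot_step hmin hM
  obtain ⟨A, hA1, hA2⟩ := ha.cone
  have hA3 : σ.sl.In (Set.Ioi q.1) A := hA2.upper (isUpperSet_Ioi _) hsl.left hM
  obtain ⟨Q', u, r, w, hT, hQ'⟩ := hb.merge hJ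
  obtain ⟨B', u', r', w', hT', hB'⟩ := hS.merge hA1
  refine ⟨B', Q', u, r, w, hT, ⟨G'', b ≫ a, S ≫ a, b ≫ J, ?_, ?_, hQ', hB', hopt'⟩,
    Slicing.P_ext hT hq hQ, Slicing.In.ext_upper (isUpperSet_Ioi _) hT' hB hA3, ?_, ?_⟩
  · have : (S ≫ a) ≫ b ≫ J = (S ≫ (a ≫ b)) ≫ J := by simp
    rw [this, hab, h2, iter_succ, Category.assoc, h1]
  · have : (S ≫ a) ≫ b ≫ a = (S ≫ (a ≫ b)) ≫ a := by simp
    rw [this, hab, h2, Category.assoc]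
  · rw [cls_mk hT, hcls, succ_nsmul, add_comm]
  · have := hfin q.2
    have := hfin Q
    have := hfin Q'
    have h3 := finrank_mid_le' G (map_tri ι hT)
    rw [Nat.succ_mul]
    omega

lemma TopD.succ (hmin : Least ι hK σ G₀ b₀ m k) {p : ℝ × C} {R : List (ℝ × C)}
    (hR : ∀ q ∈ R, q.1 < p.1) {G : T} {τ : G ⟶ G} (hfin : ∀ A : C, FiniteDimensional ℂ (G ⟶ ι.obj A))
    {n : ℕ} {U B : C} (h : TopD ι hK σ G₀ b₀ m k p R τ n U B) :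
    ∃ (U' B' : C) (u : U ⟶ U') (r : U' ⟶ p.2) (w : p.2 ⟶ U⟦(1 : ℤ)⟧),
      Triangle.mk u r w ∈ distTriang C ∧ TopD ι hK σ G₀ b₀ m k p R τ (n + 1) U' B' := by
  obtain ⟨⟨G', τ', S, J, h1, h2, hS, hJ, hopt⟩, hU, hB, hcls, hbd⟩ := h
  have hsl := hopt.cfg.sl
  have hp := (hsl p (by simp)).1
  obtain ⟨G'', c, d, hcd, hc, hd, hopt'⟩ := hopt.top_step hmin hR
  obtain ⟨A, hA1, hA2⟩ := hd.cone
  have hA3 : σ.sl.In (Set.Ici p.1)ᶜ A := hA2.lower (isUpperSet_Ici _)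
    (fun q hq => hsl q (by simp [hq])) (fun q hq => not_le.2 (hR q hq))
  obtain ⟨U', u, r, w, hT, hU'⟩ := hS.merge hc
  obtain ⟨B', u', r', w', hT', hB'⟩ := hA1.merge hJ
  refine ⟨U', B', u, r, w, hT, ⟨G'', d ≫ c, S ≫ c, d ≫ J, ?_, ?_, hU', hB', hopt'⟩,
    Slicing.P_ext hT hU hp, Slicing.In.ext_lower (isUpperSet_Ici _) hT' hA3 hB, ?_, ?_⟩
  · have : (S ≫ c) ≫ d ≫ J = (S ≫ (c ≫ d)) ≫ J := by simp
    rw [this, hcd, h2, iter_succ, Category.assoc, h1]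
  · have : (S ≫ c) ≫ d ≫ c = (S ≫ (c ≫ d)) ≫ c := by simp
    rw [this, hcd, h2, Category.assoc]
  · rw [cls_mk hT, hcls, succ_nsmul]
  · have hTs := Triangle.shift_distinguished _ hT (1 : ℤ)
    have hTs' : Triangle.mk ((1 : ℤ).negOnePow • u⟦(1 : ℤ)⟧') ((1 : ℤ).negOnePow • r⟦(1 : ℤ)⟧')
      ((1 : ℤ).negOnePow • w⟦(1 : ℤ)⟧' ≫ (shiftFunctorComm C 1 1).hom.app _) ∈
        distTriang C := hTs
    have := hfin (p.2⟦(1 : ℤ)⟧)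
    have := hfin (U⟦(1 : ℤ)⟧)
    have := hfin (U'⟦(1 : ℤ)⟧)
    have h3 := finrank_mid_le' G (map_tri ι hTs')
    rw [Nat.succ_mul]
    omega


end Pool.Stab
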