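import Mathlib
import Pool.Agent.Work.MP_841263_o.Chain

/-!
# Dimensions in the chains
-/

open CategoryTheory CategoryTheory.Limits CategoryTheory.Pretriangulated
open scoped ZeroObject

set_option backward.isDefEq.respectTransparency false
set_option backward.defeqAttrib.useBackward true
set_option linter.unusedSectionVars false

namespace Pool.Stab

universe v u v' u'

variable {C : Type u} [Category.{v} C] [Preadditive C] [HasZeroObject C] [HasShift C ℤ]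
  [∀ n : ℤ, (shiftFunctor C n).Additive] [Pretriangulated C] [Linear ℂ C]
  [∀ n : ℤ, (shiftFunctor C n).Linear ℂ]
  {T : Type u'} [Category.{v'} T] [Preadditive T] [HasZeroObject T] [HasShift T ℤ]
  [∀ n : ℤ, (shiftFunctor T n).Additive] [Pretriangulated T] [Linear ℂ T]
  [∀ n : ℤ, (shiftFunctor T n).Linear ℂ]
  {ι : C ⥤ T} [ι.CommShift ℤ] [ι.IsTriangulated] [ι.Full] [ι.Faithful] [ι.Linear ℂ]
  {hK : IsK3 C} {σ : StabCond C} {G₀ : T} {b₀ : K0 C} {m : ℝ} {k : ℕ}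

lemma lk_of_zero_src {X Y : T} (f : X ⟶ Y) (W : T) (h : ∀ a : Y ⟶ W, a = 0) : lk f W = 0 := by
  have : LinearMap.range (Linear.leftComp ℂ W f) = ⊥ := by
    rw [eq_bot_iff]
    rintro _ ⟨a, rfl⟩
    rw [h a, map_zero]
    exact Submodule.zero_mem _
  rw [lk, this, finrank_bot]

lemma lk_of_zero_tgt {X Y : T} (f : X ⟶ Y) (W : T) (h : ∀ a : X ⟶ W, a = 0) : lk f W = 0 := by
  have : LinearMap.range (Linear.leftComp ℂ W f) = ⊥ := by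
    rw [eq_bot_iff]
    rintro b ⟨a, rfl⟩
    rw [h (Linear.leftComp ℂ W f a)]
    exact Submodule.zero_mem _
  rw [lk, this, finrank_bot]

variable [IsTriangulated C] [IsTriangulated T]

/-- The dimension of `Hom(Q, Z)` for `Z` semistable of the same phase. -/
lemma BotD.dim {M : List (ℝ × C)} {q : ℝ × C} (hM : ∀ p ∈ M, q.1 < p.1) {G : T} {τ : G ⟶ G}
    (hfin : ∀ A : C, FiniteDimensional ℂ (G ⟶ ι.obj A)) {n : ℕ} {B Q : C}
    (h : BotD ι hK σ G₀ b₀ m k M q τ n B Q) {Z : C} (hZ : σ.sl.P q.1 Z) :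
    Module.finrank ℂ (Q ⟶ Z) + lk (iter τ n) (ι.obj Z) = Module.finrank ℂ (G ⟶ ι.obj Z) := by
  obtain ⟨⟨G', τ', S, J, h1, h2, hJ, hS, hopt⟩, hQ, hB, -, -⟩ := h
  have hsl := hopt.cfg.sl
  have hZ1 : σ.sl.In {q.1} Z := Slicing.in_of_P hZ (Set.mem_singleton _)
  obtain ⟨B', hB1, hB2⟩ := hopt.cfg.fac.cone
  have hB3 : σ.sl.In (Set.Ici q.1) B' := by
    refine hB2.upper (isUpperSet_Ici _) hsl ?_
    intro p hp
    rcases List.mem_append.1 hp with hp | hp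
    · exact (hM p hp).le
    · rw [List.mem_singleton] at hp
      subst hp
      exact Set.self_mem_Ici
  have hvan : ∀ f : G'⟦(1 : ℤ)⟧ ⟶ ι.obj Z, f = 0 := by
    refine hopt.cfg.adm.shift_zero hB1 fun f => hB3.shift_one.hom_zero hZ1 ?_ f
    rintro _ ⟨x, hx, rfl⟩ y hy
    rw [Set.mem_singleton_iff] at hy
    subst hy
    have : q.1 ≤ x := hx
    show q.1 < x + 1
    linarith
  have hSinj : ∀ a : G' ⟶ ι.obj Z, S ≫ a = 0 → a = 0 := by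
    intro a ha
    obtain ⟨g, k, hT⟩ := hS
    obtain ⟨b, hb⟩ := Triangle.yoneda_exact₂ _ hT a ha
    have hb' : a = g ≫ b := hb
    rw [hb', map_zero' (fun f => hB.hom_zero hZ1 ?_ f) b, comp_zero]
    intro x hx y hy
    rw [Set.mem_singleton_iff] at hy
    subst hy
    exact hx
  obtain ⟨g, k, hT⟩ := hJ
  have := hfin Z
  have := finite_map ι hK Q Z
  have e1 := finrank_mid (ι.obj Z) hT
  have e2 := finrank_mid (ι.obj Z) (rot_mk hT)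
  rw [lk_of_zero_src k (ι.obj Z) hvan, finrank_map] at e2
  have e3 := lk_comp_inj (ι.obj Z) S J hSinj
  rw [← h1]
  omega

/-- The dimension of `Hom(Z, U)` for `Z` semistable of the same phase. -/
lemma TopD.dim {p : ℝ × C} {R : List (ℝ × C)} (hR : ∀ q ∈ R, q.1 < p.1) {G : T} {τ : G ⟶ G}
    (hfin : ∀ A : C, FiniteDimensional ℂ (G ⟶ ι.obj A)) {n : ℕ} {U B : C}
    (h : TopD ι hK σ G₀ b₀ m k p R τ n U B) {Z : C} (hZ : σ.sl.P p.1 Z) :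
    Module.finrank ℂ (Z ⟶ U) + lk (iter τ n) (ι.obj (Z⟦(1 : ℤ)⟧)) =
      Module.finrank ℂ (G ⟶ ι.obj (Z⟦(1 : ℤ)⟧)) := by
  obtain ⟨⟨G', τ', S, J, h1, h2, hS, hJ, hopt⟩, hU, hB, -, -⟩ := h
  have hsl := hopt.cfg.sl
  have hZ1 : σ.sl.In {p.1} Z := Slicing.in_of_P hZ (Set.mem_singleton _)
  obtain ⟨B', hB1, hB2⟩ := hopt.cfg.fac.cone
  have hB3 : σ.sl.In (Set.Ioi p.1)ᶜ B' := by
    refine hB2.lower (isUpperSet_Ioi _) hsl ?_
    intro q hq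
    rcases List.mem_cons.1 hq with rfl | hq
    · simp
    · exact not_lt.2 (hR q hq).le
  have hvan : ∀ f : G' ⟶ ι.obj (Z⟦(2 : ℤ)⟧), f = 0 := by
    refine hopt.cfg.adm.zero_of_onto hB1 ?_
    refine forall_zero_of_finrank hK ?_
    rw [finrank_duality hK, show (2 : ℤ) - 2 = 0 by norm_num, finrank_shift_zero]
    refine finrank_of_forall_zero fun f => hZ1.hom_zero hB3.shift_neg_one ?_ f
    rintro x hx _ ⟨y, hy, rfl⟩
    rw [Set.mem_singleton_iff] at hx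
    subst hx
    have : y ≤ p.1 := not_lt.1 hy
    show y - 1 < p.1
    linarith
  have hJsurj : ∀ a : G' ⟶ ι.obj (Z⟦(1 : ℤ)⟧), ∃ b : G ⟶ ι.obj (Z⟦(1 : ℤ)⟧), J ≫ b = a := by
    intro a
    have hv : ∀ f : B⟦(-1 : ℤ)⟧ ⟶ Z⟦(1 : ℤ)⟧, f = 0 := by
      refine forall_zero_of_finrank hK ?_
      have eB : (B⟦(-1 : ℤ)⟧)⟦(1 : ℤ)⟧ ≅ B := (shiftFunctorCompIsoId C (-1 : ℤ) 1 (by simp)).app B
      rw [finrank_duality hK, show (2 : ℤ) - 1 = 1 by norm_num, finrank_iso_right eB]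
      refine finrank_of_forall_zero fun f => hZ1.hom_zero hB ?_ f
      intro x hx y hy
      rw [Set.mem_singleton_iff] at hx
      subst hx
      exact not_le.1 hy
    obtain ⟨g, k, hT⟩ := hJ
    obtain ⟨a', c', hinv⟩ := exists_invrot hT
    obtain ⟨b, hb⟩ := Triangle.yoneda_exact₂ _ hinv a (map_neg_zero hv _)
    exact ⟨b, hb.symm⟩
  obtain ⟨g, k, hT⟩ := hS
  have := hfin (Z⟦(1 : ℤ)⟧)
  have := finite_map ι hK U (Z⟦(2 : ℤ)⟧)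
  have e := shIso ι Z (a := 1) (b := 2) (by norm_num)
  have : FiniteDimensional ℂ (G⟦(1 : ℤ)⟧ ⟶ ι.obj (Z⟦(2 : ℤ)⟧)) :=
    Module.Finite.equiv (shEquiv G e)
  have e1 := finrank_mid (ι.obj (Z⟦(2 : ℤ)⟧)) (rot_mk hT)
  have e2 := finrank_mid (ι.obj (Z⟦(2 : ℤ)⟧)) (rot_mk (rot_mk hT))
  rw [lk_neg, lk_shift S e] at e2
  rw [lk_of_zero_tgt g _ hvan, finrank_map, ← hK.serre] at e1
  have e3 : Module.finrank ℂ (G ⟶ ι.obj (Z⟦(1 : ℤ)⟧)) =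
    Module.finrank ℂ (G⟦(1 : ℤ)⟧ ⟶ ι.obj (Z⟦(2 : ℤ)⟧)) := LinearEquiv.finrank_eq (shEquiv G e)
  have e4 := lk_comp_surj (ι.obj (Z⟦(1 : ℤ)⟧)) S J hJsurj
  rw [← h1]
  omega

/-- The kernel dimensions. -/
lemma BotD.ker {M : List (ℝ × C)} {q : ℝ × C} (hM : ∀ p ∈ M, q.1 < p.1) {G : T} {τ : G ⟶ G}
    (hfin : ∀ A : C, FiniteDimensional ℂ (G ⟶ ι.obj A)) {n : ℕ} {B Q : C}
    (h : BotD ι hK σ G₀ b₀ m k M q τ n B Q) {Z : C} (hZ : σ.sl.P q.1 Z) :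
    Module.finrank ℂ (Q ⟶ Z) = Module.finrank ℂ (LinearMap.ker
      ((Linear.leftComp ℂ (ι.obj Z) τ : (G ⟶ ι.obj Z) →ₗ[ℂ] (G ⟶ ι.obj Z)) ^ n)) := by
  have := hfin Z
  have h1 := h.dim hM hfin hZ
  have h2 := finrank_ker_iter τ (ι.obj Z) n
  omega

lemma TopD.ker {p : ℝ × C} {R : List (ℝ × C)} (hR : ∀ q ∈ R, q.1 < p.1) {G : T} {τ : G ⟶ G}
    (hfin : ∀ A : C, FiniteDimensional ℂ (G ⟶ ι.obj A)) {n : ℕ} {U B : C}
    (h : TopD ι hK σ G₀ b₀ m k p R τ n U B) {Z : C} (hZ : σ.sl.P p.1 Z) :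
    Module.finrank ℂ (Z ⟶ U) = Module.finrank ℂ (LinearMap.ker
      ((Linear.leftComp ℂ (ι.obj (Z⟦(1 : ℤ)⟧)) τ :
        (G ⟶ ι.obj (Z⟦(1 : ℤ)⟧)) →ₗ[ℂ] (G ⟶ ι.obj (Z⟦(1 : ℤ)⟧))) ^ n)) := by
  have := hfin (Z⟦(1 : ℤ)⟧)
  have h1 := h.dim hR hfin hZ
  have h2 := finrank_ker_iter τ (ι.obj (Z⟦(1 : ℤ)⟧)) n
  omega

/-- The chain at the bottom, with `hom(Q, Q) ≥ n`. -/
lemma bot_chain (hmin : Least ι hK σ G₀ b₀ m k) {M : List (ℝ × C)} {q : ℝ × C}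
    (hM : ∀ p ∈ M, q.1 < p.1) {G : T} {τ : G ⟶ G} (h : Opt ι hK σ G₀ b₀ m k (M ++ [q]) τ)
    (n : ℕ) : ∃ B Q : C, BotD ι hK σ G₀ b₀ m k M q τ n B Q ∧
      n ≤ Module.finrank ℂ (Q ⟶ Q) := by
  have hfin := h.cfg.adm.fin
  induction n with
  | zero => exact ⟨0, 0, BotD.zero h, Nat.zero_le _⟩
  | succ n ih =>
    obtain ⟨B, Q, hQ, -⟩ := ih
    obtain ⟨B', Q', u, r, w, hT, hQ'⟩ := hQ.succ hmin hM hfin
    refine ⟨B', Q', hQ', ?_⟩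
    have hq := h.cfg.sl q (by simp)
    have hlt := strict_bot hK hT hq.1 hQ'.memQ hQ.memQ hq.2
    have := hfin Q'
    rw [hQ.ker hM hfin hQ'.memQ, hQ'.ker hM hfin hQ'.memQ] at hlt
    rw [hQ'.ker hM hfin hQ'.memQ]
    exact ker_growth _ n hlt

/-- The chain at the top, with `hom(U, U) ≥ n`. -/
lemma top_chain (hmin : Least ι hK σ G₀ b₀ m k) {p : ℝ × C} {R : List (ℝ × C)}
    (hR : ∀ q ∈ R, q.1 < p.1) {G : T} {τ : G ⟶ G} (h : Opt ι hK σ G₀ b₀ m k (p :: R) τ)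
    (n : ℕ) : ∃ U B : C, TopD ι hK σ G₀ b₀ m k p R τ n U B ∧
      n ≤ Module.finrank ℂ (U ⟶ U) := by
  have hfin := h.cfg.adm.fin
  induction n with
  | zero => exact ⟨0, 0, TopD.zero h, Nat.zero_le _⟩
  | succ n ih =>
    obtain ⟨U, B, hU, -⟩ := ih
    obtain ⟨U', B', u, r, w, hT, hU'⟩ := hU.succ hmin hR hfin
    refine ⟨U', B', hU', ?_⟩
    have hp := h.cfg.sl p (by simp)
    have hlt := strict_top hK hT hp.1 hU'.memU hU.memU hp.2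
    have := hfin (U'⟦(1 : ℤ)⟧)
    rw [hU.ker hR hfin hU'.memU, hU'.ker hR hfin hU'.memU] at hlt
    rw [hU'.ker hR hfin hU'.memU]
    exact ker_growth _ n hlt

end Pool.Stab
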