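import Mathlib
import Pool.Agent.Work.MP_841263_o.Dim

/-!
# Mukai's lemma and the length of optimal factorisations
-/

open CategoryTheory CategoryTheory.Limits CategoryTheory.Pretriangulated
open scoped ZeroObject

set_option backward.isDefEq.respectTransparency false
set_option backward.defeqAttrib.useBackward true
set_option linter.unusedSectionVars false

namespace Pool.Stab

universe v u v' u'

section C

variable {C : Type u} [Category.{v} C] [Preadditive C] [HasZeroObject C] [HasShift C ℤ]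
  [∀ n : ℤ, (shiftFunctor C n).Additive] [Pretriangulated C] [Linear ℂ C]
  [∀ n : ℤ, (shiftFunctor C n).Linear ℂ]

/-- **Mukai's lemma** -/
theorem mukai (hK : IsK3 C) {X E Y : C} {i : X ⟶ E} {p : E ⟶ Y} {d : Y ⟶ X⟦(1 : ℤ)⟧}
    (hT : Triangle.mk i p d ∈ distTriang C) (hXY : ∀ f : X ⟶ Y, f = 0) :
    Module.finrank ℂ (X ⟶ X⟦(1 : ℤ)⟧) + Module.finrank ℂ (Y ⟶ Y⟦(1 : ℤ)⟧) ≤
      Module.finrank ℂ (E ⟶ E⟦(1 : ℤ)⟧) := by
  have f1 := hK.homFinite X (X⟦(1 : ℤ)⟧)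
  have f2 := hK.homFinite Y (Y⟦(1 : ℤ)⟧)
  have f3 := hK.homFinite E (E⟦(1 : ℤ)⟧)
  have hfr : Module.finrank ℂ (X ⟶ Y) = 0 := finrank_of_forall_zero hXY
  have hsh : ∀ f : X⟦(1 : ℤ)⟧ ⟶ Y⟦(1 : ℤ)⟧, f = 0 := by
    refine forall_zero_of_finrank hK ?_
    rw [finrank_shift_both, hfr]
  have hYX : ∀ f : Y ⟶ (X⟦(1 : ℤ)⟧)⟦(1 : ℤ)⟧, f = 0 := by
    refine forall_zero_of_finrank hK ?_
    rw [finrank_duality hK, show (2 : ℤ) - 1 = 1 by norm_num, finrank_shift_both, hfr]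
  let Φ : ((X ⟶ X⟦(1 : ℤ)⟧) × (Y ⟶ Y⟦(1 : ℤ)⟧)) × (E ⟶ E⟦(1 : ℤ)⟧) →ₗ[ℂ]
      (X ⟶ E⟦(1 : ℤ)⟧) × (E ⟶ Y⟦(1 : ℤ)⟧) :=
    LinearMap.prod
      ((Linear.leftComp ℂ (E⟦(1 : ℤ)⟧) i) ∘ₗ LinearMap.snd ℂ _ _ -
        (Linear.rightComp ℂ X (i⟦(1 : ℤ)⟧')) ∘ₗ LinearMap.fst ℂ _ _ ∘ₗ LinearMap.fst ℂ _ _)
      ((Linear.rightComp ℂ E (p⟦(1 : ℤ)⟧')) ∘ₗ LinearMap.snd ℂ _ _ -
        (Linear.leftComp ℂ (Y⟦(1 : ℤ)⟧) p) ∘ₗ LinearMap.snd ℂ _ _ ∘ₗ LinearMap.fst ℂ _ _)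
  have hΦ : ∀ x, x ∈ LinearMap.ker Φ ↔ i ≫ x.2 = x.1.1 ≫ i⟦(1 : ℤ)⟧' ∧
      x.2 ≫ p⟦(1 : ℤ)⟧' = p ≫ x.1.2 := by
    intro x
    have hx : Φ x = (i ≫ x.2 - x.1.1 ≫ i⟦(1 : ℤ)⟧', x.2 ≫ p⟦(1 : ℤ)⟧' - p ≫ x.1.2) := rfl
    rw [LinearMap.mem_ker, hx, Prod.mk_eq_zero, sub_eq_zero, sub_eq_zero]
  let α : LinearMap.ker Φ →ₗ[ℂ] (X ⟶ X⟦(1 : ℤ)⟧) × (Y ⟶ Y⟦(1 : ℤ)⟧) :=
    LinearMap.fst ℂ _ _ ∘ₗ (LinearMap.ker Φ).subtype
  let β : LinearMap.ker Φ →ₗ[ℂ] (E ⟶ E⟦(1 : ℤ)⟧) :=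
    LinearMap.snd ℂ _ _ ∘ₗ (LinearMap.ker Φ).subtype
  have hα : Function.Surjective α := by
    rintro ⟨f, g⟩
    have hTs := Triangle.shift_distinguished _ hT (1 : ℤ)
    obtain ⟨b, hb1, hb2⟩ := complete_distinguished_triangle_morphism₂ _ _ hT hTs f g
      ((hYX _).trans (hYX _).symm)
    have hb1' : i ≫ b = f ≫ ((1 : ℤ).negOnePow • i⟦(1 : ℤ)⟧') := hb1
    have hb2' : p ≫ g = b ≫ ((1 : ℤ).negOnePow • p⟦(1 : ℤ)⟧') := hb2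
    rw [Int.negOnePow_one, Units.neg_smul, one_smul, Preadditive.comp_neg] at hb1' hb2'
    refine ⟨⟨((f, g), -b), ?_⟩, rfl⟩
    rw [hΦ]
    refine ⟨?_, ?_⟩
    · show i ≫ (-b) = f ≫ i⟦(1 : ℤ)⟧'
      rw [Preadditive.comp_neg, hb1', neg_neg]
    · show (-b) ≫ p⟦(1 : ℤ)⟧' = p ≫ g
      rw [Preadditive.neg_comp, hb2']
  have hβ : Function.Injective β := by
    rw [injective_iff_map_eq_zero]
    rintro ⟨⟨⟨f, g⟩, h⟩, hx⟩ h0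
    have h0' : h = 0 := h0
    subst h0'
    rw [hΦ] at hx
    obtain ⟨hx1, hx2⟩ := hx
    have hx1' : 0 = f ≫ i⟦(1 : ℤ)⟧' := by simpa using hx1
    have hx2' : 0 = p ≫ g := by simpa using hx2
    have hf : f = 0 := by
      obtain ⟨y, hy⟩ := Triangle.coyoneda_exact₂ _ (rot_mk (rot_mk hT)) f
        (show f ≫ (-i⟦(1 : ℤ)⟧') = 0 by rw [Preadditive.comp_neg, ← hx1', neg_zero])
      have hy' : f = y ≫ d := hy
      rw [hy', hXY y, zero_comp]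
    have hg : g = 0 := by
      obtain ⟨y, hy⟩ := Triangle.yoneda_exact₃ _ hT g hx2'.symm
      have hy' : g = d ≫ y := hy
      rw [hy', hsh y, comp_zero]
    subst hf hg
    rfl
  have e1 := LinearMap.finrank_le_finrank_of_injective hβ
  have e2 := LinearMap.finrank_range_le α
  rw [LinearMap.range_eq_top.2 hα, finrank_top, Module.finrank_prod] at e2
  exact e2.trans e1

lemma eulerForm_nsmul (hK : IsK3 C) (n : ℕ) (x : K0 C) :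
    eulerForm hK (n • x) (n • x) = (n : ℤ) ^ 2 * eulerForm hK x x := by
  have h1 : eulerForm hK (n • x) (n • x) = n • eulerForm hK (n • x) x := map_nsmul _ _ _
  have h2 : eulerForm hK (n • x) x = n • eulerForm hK x x := by
    rw [eulerForm_symm, map_nsmul]
  rw [h1, h2, nsmul_eq_mul, nsmul_eq_mul]
  ring

lemma StabCond.euler_self (σ : StabCond C) (hK : IsK3 C) {φ : ℝ} {X : C} (hX : σ.sl.P φ X) :
    eulerForm hK (cls X) (cls X) = 2 * (Module.finrank ℂ (X ⟶ X) : ℤ) -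
      (Module.finrank ℂ (X ⟶ X⟦(1 : ℤ)⟧) : ℤ) := by
  have h : σ.sl.Heart (φ - 1) X := Slicing.heart_of_P hX (by linarith) (by linarith)
  rw [eulerForm_cls, h.eulerChar hK h]
  ring

lemma class_null (hK : IsK3 C) (hB : IsPSD (eulerForm hK)) {x : K0 C} {c : ℕ}
    (h : ∀ n : ℕ, (n : ℤ) ^ 2 * eulerForm hK x x ≤ 2 * (n * c : ℕ)) : eulerForm hK x x = 0 := by
  have h0 := hB.nonneg x
  by_contra hne
  have h1 : 1 ≤ eulerForm hK x x := by omega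
  have h2 := h (2 * c + 1)
  push_cast at h2
  nlinarith

end C

end Pool.Stab
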