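import Mathlib
import Pool.Agent.Work.MP_841263_o.Mukai

/-!
# Optimal factorisations have one factor
-/

open CategoryTheory CategoryTheory.Limits CategoryTheory.Pretriangulated
open scoped ZeroObject

set_option backward.isDefEq.respectTransparency false
set_option backward.defeqAttrib.useBackward true
set_option linter.unusedSectionVars false

namespace Pool.Stab

universe v u v' u'

variable {C : Type u} [Category.{v} C] [Preadditive C] [HasZeroObject C] [HasShift C ℤ]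
  [∀ n : ℤ, (shiftFunctor C n).Additive] [Pretriangulated C] [Linear ℂ C]
  [∀ n : ℤ, (shiftFunctor C n).Linear ℂ]
  {T : Type u'} [Category.{v'} T] [Preadditive T] [HasZeroObject T] [HasShift T ℤ]
  [∀ n : ℤ, (shiftFunctor T n).Additive] [Pretriangulated T] [Linear ℂ T]
  [∀ n : ℤ, (shiftFunctor T n).Linear ℂ]
  {ι : C ⥤ T} [ι.CommShift ℤ] [ι.IsTriangulated] [ι.Full] [ι.Faithful] [ι.Linear ℂ]
  {hK : IsK3 C} {σ : StabCond C} {G₀ : T} {b₀ : K0 C} {m : ℝ} {k : ℕ}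
  [IsTriangulated C] [IsTriangulated T]

/-- `hom¹(Q, Q) ≥ 2 n` at the bottom. -/
lemma bot_hom_one (hB : IsPSD (eulerForm hK)) (hmin : Least ι hK σ G₀ b₀ m k)
    {M : List (ℝ × C)} {q : ℝ × C}
    (hM : ∀ p ∈ M, q.1 < p.1) {G : T} {τ : G ⟶ G} (h : Opt ι hK σ G₀ b₀ m k (M ++ [q]) τ)
    (n : ℕ) : ∃ B Q : C, BotD ι hK σ G₀ b₀ m k M q τ n B Q ∧
      2 * n ≤ Module.finrank ℂ (Q ⟶ Q⟦(1 : ℤ)⟧) := by
  have hfin := h.cfg.adm.fin
  have hnull : eulerForm hK (cls q.2) (cls q.2) = 0 := by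
    refine class_null hK hB (c := Module.finrank ℂ (G ⟶ ι.obj q.2)) fun j => ?_
    obtain ⟨B, Q, hQ, -⟩ := bot_chain hmin hM h j
    have := hfin Q
    have h1 := σ.euler_self hK hQ.memQ
    rw [hQ.clsQ, eulerForm_nsmul] at h1
    have h2 : Module.finrank ℂ (Q ⟶ Q) ≤ Module.finrank ℂ (G ⟶ ι.obj Q) := by
      rw [hQ.ker hM hfin hQ.memQ]
      exact Submodule.finrank_le _
    have h3 := hQ.bound
    have h4 : Module.finrank ℂ (Q ⟶ Q) ≤ j * Module.finrank ℂ (G ⟶ ι.obj q.2) := h2.trans h3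
    rw [h1]
    have h5 : (Module.finrank ℂ (Q ⟶ Q) : ℤ) ≤
      ((j * Module.finrank ℂ (G ⟶ ι.obj q.2) : ℕ) : ℤ) := by exact_mod_cast h4
    have h6 : (0 : ℤ) ≤ (Module.finrank ℂ (Q ⟶ Q⟦(1 : ℤ)⟧) : ℤ) := Int.natCast_nonneg _
    linarith
  obtain ⟨B, Q, hQ, hn⟩ := bot_chain hmin hM h n
  refine ⟨B, Q, hQ, ?_⟩
  have h1 := σ.euler_self hK hQ.memQ
  rw [hQ.clsQ, eulerForm_nsmul, hnull, mul_zero] at h1
  omega

/-- `hom¹(U, U) ≥ 2 n` at the top. -/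
lemma top_hom_one (hB : IsPSD (eulerForm hK)) (hmin : Least ι hK σ G₀ b₀ m k) {p : ℝ × C}
    {R : List (ℝ × C)} (hR : ∀ q ∈ R, q.1 < p.1) {G : T} {τ : G ⟶ G}
    (h : Opt ι hK σ G₀ b₀ m k (p :: R) τ) (n : ℕ) :
    ∃ U B : C, TopD ι hK σ G₀ b₀ m k p R τ n U B ∧
      2 * n ≤ Module.finrank ℂ (U ⟶ U⟦(1 : ℤ)⟧) := by
  have hfin := h.cfg.adm.fin
  have hnull : eulerForm hK (cls p.2) (cls p.2) = 0 := by
    refine class_null hK hB (c := Module.finrank ℂ (G ⟶ ι.obj (p.2⟦(1 : ℤ)⟧))) fun j => ?_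
    obtain ⟨U, B, hU, -⟩ := top_chain hmin hR h j
    have := hfin (U⟦(1 : ℤ)⟧)
    have h1 := σ.euler_self hK hU.memU
    rw [hU.clsU, eulerForm_nsmul] at h1
    have h2 : Module.finrank ℂ (U ⟶ U) ≤ Module.finrank ℂ (G ⟶ ι.obj (U⟦(1 : ℤ)⟧)) := by
      rw [hU.ker hR hfin hU.memU]
      exact Submodule.finrank_le _
    have h3 := hU.bound
    have h4 : Module.finrank ℂ (U ⟶ U) ≤ j * Module.finrank ℂ (G ⟶ ι.obj (p.2⟦(1 : ℤ)⟧)) :=
      h2.trans h3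
    rw [h1]
    have h5 : (Module.finrank ℂ (U ⟶ U) : ℤ) ≤
      ((j * Module.finrank ℂ (G ⟶ ι.obj (p.2⟦(1 : ℤ)⟧)) : ℕ) : ℤ) := by exact_mod_cast h4
    have h6 : (0 : ℤ) ≤ (Module.finrank ℂ (U ⟶ U⟦(1 : ℤ)⟧) : ℤ) := Int.natCast_nonneg _
    linarith
  obtain ⟨U, B, hU, hn⟩ := top_chain hmin hR h n
  refine ⟨U, B, hU, ?_⟩
  have h1 := σ.euler_self hK hU.memU
  rw [hU.clsU, eulerForm_nsmul, hnull, mul_zero] at h1
  omega

/-- There is no optimal sorted factorisation with at least two factors. -/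
lemma no_two (hB : IsPSD (eulerForm hK)) (hmin : Least ι hK σ G₀ b₀ m k) {p q : ℝ × C}
    {M : List (ℝ × C)} {G : T} {τ : G ⟶ G} (h : Opt ι hK σ G₀ b₀ m k (p :: (M ++ [q])) τ)
    (hs : (p :: (M ++ [q])).Pairwise (fun x y => y.1 < x.1)) : False := by
  have hR : ∀ r ∈ M ++ [q], r.1 < p.1 := (List.pairwise_cons.1 hs).1
  have hM : ∀ r ∈ p :: M, q.1 < r.1 := by
    have hs' : ((p :: M) ++ [q]).Pairwise (fun x y => y.1 < x.1) := hs
    rw [List.pairwise_append] at hs'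
    exact fun r hr => hs'.2.2 r hr q (List.mem_singleton_self q)
  have h' : Opt ι hK σ G₀ b₀ m k ((p :: M) ++ [q]) τ := h
  obtain ⟨c, hc⟩ := h.cfg.adm.growth
  obtain ⟨B, Q, hQ, hQ1⟩ := bot_hom_one hB hmin hM h' (c + 1)
  obtain ⟨U, B'', hU, hU1⟩ := top_hom_one hB hmin hR h (c + 1)
  obtain ⟨G', τ', S, J, h1, -, hJ, hS, -⟩ := hQ.data
  obtain ⟨G'', τ'', S', J', h1', -, hS', hJ', -⟩ := hU.data
  obtain ⟨E, a, b, d, hT, hE⟩ := hS.merge hJ
  obtain ⟨E', a', b', d', hT', hE'⟩ := hS'.merge hJ'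
  rw [h1] at hE
  rw [h1'] at hE'
  obtain ⟨e⟩ := hE'.unique hE
  have hT2 := tri_mid_iso hT' e
  have hpq : q.1 < p.1 := hR q (by simp)
  have hU' : σ.sl.In {p.1} U := Slicing.in_of_P hU.memU (Set.mem_singleton _)
  have hQ' : σ.sl.In {q.1} Q := Slicing.in_of_P hQ.memQ (Set.mem_singleton _)
  -- lift `U → E` to `B`
  obtain ⟨v, hv⟩ := Triangle.coyoneda_exact₂ _ hT (a' ≫ e.hom)
    (σ.sl.hom_zero hpq hU.memU hQ.memQ _)
  have hv' : a' ≫ e.hom = v ≫ a := hv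
  rw [hv'] at hT2
  obtain ⟨N, v1, v2, hTv⟩ := distinguished_cocone_triangle v
  obtain ⟨x, y, z, hxyz, -⟩ := exists_octa hTv hT hT2
  have hUN : ∀ f : U ⟶ N, f = 0 := by
    obtain ⟨x', y', hinv⟩ := exists_invrot hxyz
    refine hom_zero_of_ext₂ hinv (fun f => ?_) (fun f => ?_)
    · exact σ.sl.hom_zero (by linarith) hU.memU (σ.sl.P_shift_neg_one q.1 Q hQ.memQ) f
    · refine hU'.hom_zero hU.memB ?_ f
      intro s hs t ht
      rw [Set.mem_singleton_iff] at hs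
      subst hs
      exact not_le.1 ht
  have hBQ : ∀ f : B ⟶ Q, f = 0 := by
    intro f
    refine hQ.memB.hom_zero hQ' ?_ f
    intro s hs t ht
    rw [Set.mem_singleton_iff] at ht
    subst ht
    exact hs
  have m1 := mukai hK hT hBQ
  have m2 : Module.finrank ℂ (U ⟶ U⟦(1 : ℤ)⟧) + Module.finrank ℂ (N ⟶ N⟦(1 : ℤ)⟧) ≤
    Module.finrank ℂ (B ⟶ B⟦(1 : ℤ)⟧) := mukai hK hTv hUN
  have m3 := hc (c + 1) E hE
  omega

lemma degChar_of_isIso {G : T} {τ : G ⟶ G} (h : Param ι τ) [IsIso τ] (A : C) :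
    degChar ι G A = 0 := by
  have hiso : ∀ n : ℕ, IsIso (iter τ n) := by
    intro n
    induction n with
    | zero => exact (inferInstance : IsIso (𝟙 G))
    | succ n ih =>
      rw [iter_succ]
      infer_instance
  have hz : ∀ (A : C) (f : G ⟶ ι.obj A), f = 0 := by
    intro A f
    obtain ⟨n, hn⟩ := h.nil A f
    have := hiso n
    rw [← cancel_epi (iter τ n), hn, comp_zero]
  rw [degChar, finsum_eq_zero_of_forall_eq_zero]
  intro n
  rw [finrank_of_forall_zero (hz _)]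
  simp

variable [Module.Finite ℤ (K0 C)] [Module.Free ℤ (K0 C)]

/-- **For every stability condition some modification of `G₀` has an endomorphism with a
semistable cone.** -/
theorem exists_single (hK : IsK3 C) (hB : IsPSD (eulerForm hK)) (σ : StabCond C) {G₀ : T}
    {τ₀ : G₀ ⟶ G₀} (hadm : Param ι τ₀) {B₀ : C} (hB₀ : IsCone ι τ₀ B₀)
    (hdeg : ∃ A : C, cls A ∈ radical (eulerForm hK) ∧ degChar ι G₀ A ≠ 0) :
    ∃ (G : T) (τ : G ⟶ G) (ψ : ℝ) (B : C), Param ι τ ∧ IsCone ι τ B ∧ σ.sl.P ψ B ∧ ¬ IsZero B ∧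
      cls B = cls B₀ ∧ ∀ A : C, cls A ∈ radical (eulerForm hK) →
        degChar ι G A = degChar ι G₀ A := by
  obtain ⟨l, hl⟩ := σ.sl.exists_HN B₀
  obtain ⟨L₀, hL1, hL2, -⟩ := σ.exists_list hl
  have hcfg : FacCfg ι hK σ G₀ (cls B₀) L₀ τ₀ :=
    ⟨hadm, hB₀.fac hL2, hL1, fun _ _ => rfl, fun B hB => by
      obtain ⟨e⟩ := hB.unique hB₀
      exact cls_iso e⟩
  obtain ⟨m, k, hmin, L, G, τ, hopt⟩ := exists_least hcfg
  obtain ⟨L', -, hs, hopt'⟩ := Opt.sort hmin L [] hopt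
  rw [List.nil_append] at hopt'
  rcases List.eq_nil_or_concat L' with rfl | ⟨M, q, rfl⟩
  · exfalso
    have : IsIso τ := hopt'.cfg.fac
    obtain ⟨A, hA, hne⟩ := hdeg
    apply hne
    rw [← hopt'.cfg.deg.1 A hA]
    exact degChar_of_isIso hopt'.cfg.adm A
  · rw [List.concat_eq_append] at hs hopt'
    cases M with
    | nil =>
      have hc : IsCone ι τ q.2 := fac_single.1 hopt'.cfg.fac
      have hq := hopt'.cfg.sl q (by simp)
      exact ⟨G, τ, q.1, q.2, hopt'.cfg.adm, hc, hq.1, hq.2, hopt'.cfg.deg.2 _ hc,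
        hopt'.cfg.deg.1⟩
    | cons p M => exact (no_two hB hmin hopt' hs).elim

end Pool.Stab
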