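import Mathlib
import Pool.Agent.Work.MP_841263_o.Single

/-!
# The degree homomorphism
-/

open CategoryTheory CategoryTheory.Limits CategoryTheory.Pretriangulated
open scoped ZeroObject

set_option backward.isDefEq.respectTransparency false
set_option backward.defeqAttrib.useBackward true
set_option linter.unusedSectionVars false

namespace Pool.Stab

universe v u v' u'

variable {C : Type u} [Category.{v} C] [Preadditive C] [HasZeroObject C] [HasShift C ℤ]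
  [∀ n : ℤ, (shiftFunctor C n).Additive] [Pretriangulated C] [Linear ℂ C]
  [∀ n : ℤ, (shiftFunctor C n).Linear ℂ]
  {T : Type u'} [Category.{v'} T] [Preadditive T] [HasZeroObject T] [HasShift T ℤ]
  [∀ n : ℤ, (shiftFunctor T n).Additive] [Pretriangulated T] [Linear ℂ T]
  [∀ n : ℤ, (shiftFunctor T n).Linear ℂ]
  {ι : C ⥤ T} [ι.CommShift ℤ] [ι.IsTriangulated] [ι.Full] [ι.Faithful] [ι.Linear ℂ]

lemma rkι_smul (G : T) {X Y : C} (u : ℤˣ) (f : X ⟶ Y) :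
    rk G (ι.map (u • f)) = rk G (ι.map f) := by
  rw [Functor.map_units_smul, rk_units_smul]

lemma rkι_iso (G : T) {X Y X' Y' : C} (f : X ⟶ Y) (f' : X' ⟶ Y') (e₁ : X ≅ X') (e₂ : Y ≅ Y')
    (h : f ≫ e₂.hom = e₁.hom ≫ f') : rk G (ι.map f) = rk G (ι.map f') := by
  refine rk_iso G _ _ (ι.mapIso e₁) (ι.mapIso e₂) ?_
  rw [Functor.mapIso_hom, Functor.mapIso_hom, ← Functor.map_comp, h, Functor.map_comp]

lemma finrankι₂ (G : T) (hfin : ∀ A : C, FiniteDimensional ℂ (G ⟶ ι.obj A)) {X Y Z : C}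
    {f : X ⟶ Y} {g : Y ⟶ Z} {h : Z ⟶ X⟦(1 : ℤ)⟧} (hT : Triangle.mk f g h ∈ distTriang C) :
    Module.finrank ℂ (G ⟶ ι.obj Y) = rk G (ι.map f) + rk G (ι.map g) := by
  have := hfin Y
  have h2 := LinearMap.finrank_range_add_finrank_ker (Linear.rightComp ℂ G (ι.map g))
  rw [ker_rightComp G (map_tri ι hT)] at h2
  rw [rk, rk, ← h2, add_comm]

lemma finrankι₃ (G : T) (hfin : ∀ A : C, FiniteDimensional ℂ (G ⟶ ι.obj A)) {X Y Z : C}
    {f : X ⟶ Y} {g : Y ⟶ Z} {h : Z ⟶ X⟦(1 : ℤ)⟧} (hT : Triangle.mk f g h ∈ distTriang C) :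
    Module.finrank ℂ (G ⟶ ι.obj Z) = rk G (ι.map g) + rk G (ι.map h) :=
  finrankι₂ G hfin (rot_mk hT)

lemma finrankι₁ (G : T) (hfin : ∀ A : C, FiniteDimensional ℂ (G ⟶ ι.obj A)) {X Y Z : C}
    {f : X ⟶ Y} {g : Y ⟶ Z} {h : Z ⟶ X⟦(1 : ℤ)⟧} (hT : Triangle.mk f g h ∈ distTriang C) :
    Module.finrank ℂ (G ⟶ ι.obj (X⟦(1 : ℤ)⟧)) = rk G (ι.map h) + rk G (ι.map (f⟦(1 : ℤ)⟧')) := by
  rw [finrankι₂ G hfin (rot_mk (rot_mk hT)), Functor.map_neg, rk_neg]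

lemma rkι_shift_comm (G : T) {X Y : C} (f : X ⟶ Y) (n : ℤ) :
    rk G (ι.map ((f⟦n⟧')⟦(1 : ℤ)⟧')) = rk G (ι.map (f⟦n + 1⟧')) :=
  rkι_iso G _ _ ((shiftFunctorAdd' C n 1 (n + 1) rfl).app X).symm
    ((shiftFunctorAdd' C n 1 (n + 1) rfl).app Y).symm
    ((shiftFunctorAdd' C n 1 (n + 1) rfl).inv.naturality f)

lemma finrankι_shift (G : T) (X : C) {a b c : ℤ} (h : a + b = c) :
    Module.finrank ℂ (G ⟶ ι.obj ((X⟦a⟧)⟦b⟧)) = Module.finrank ℂ (G ⟶ ι.obj (X⟦c⟧)) :=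
  finrank_iso_right (ι.mapIso ((shiftFunctorAdd' C a b c h).app X).symm) G

lemma finrankι_tri (G : T) (hfin : ∀ A : C, FiniteDimensional ℂ (G ⟶ ι.obj A)) {X Y Z : C}
    {f : X ⟶ Y} {g : Y ⟶ Z} {h : Z ⟶ X⟦(1 : ℤ)⟧} (hT : Triangle.mk f g h ∈ distTriang C)
    (n : ℤ) :
    Module.finrank ℂ (G ⟶ ι.obj (Y⟦n⟧)) = rk G (ι.map (f⟦n⟧')) + rk G (ι.map (g⟦n⟧')) ∧
    Module.finrank ℂ (G ⟶ ι.obj (Z⟦n⟧)) = rk G (ι.map (g⟦n⟧')) + rk G (ι.map (h⟦n⟧')) ∧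
    Module.finrank ℂ (G ⟶ ι.obj (X⟦n + 1⟧)) =
      rk G (ι.map (h⟦n⟧')) + rk G (ι.map (f⟦n + 1⟧')) := by
  have hT' : Triangle.mk (n.negOnePow • f⟦n⟧') (n.negOnePow • g⟦n⟧')
      (n.negOnePow • h⟦n⟧' ≫ (shiftFunctorComm C 1 n).hom.app X) ∈ distTriang C :=
    Triangle.shift_distinguished _ hT n
  have e3 : rk G (ι.map (n.negOnePow • h⟦n⟧' ≫ (shiftFunctorComm C 1 n).hom.app X)) =
      rk G (ι.map (h⟦n⟧')) := by
    rw [rkι_smul]
    exact (rkι_iso G _ _ (Iso.refl _) ((shiftFunctorComm C 1 n).app X) (by simp)).symm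
  have e1 := finrankι₁ G hfin hT'
  have e2 := finrankι₂ G hfin hT'
  have e4 := finrankι₃ G hfin hT'
  rw [rkι_smul, rkι_smul] at e2
  rw [rkι_smul, e3] at e4
  refine ⟨e2, e4, ?_⟩
  rw [← finrankι_shift G X (rfl : n + 1 = n + 1), e1, e3]
  congr 1
  rw [← rkι_shift_comm, Functor.map_units_smul, rkι_smul]

lemma deg_support' {G : T} {A : C} (h : {n : ℤ | ∃ f : G ⟶ ι.obj (A⟦n⟧), f ≠ 0}.Finite) :
    (Function.support fun n : ℤ => (n.negOnePow : ℤ) *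
      (Module.finrank ℂ (G ⟶ ι.obj (A⟦n⟧)) : ℤ)).Finite := support_mul (deg_support h)

lemma degChar_triangle {G : T} (hfin : ∀ A : C, FiniteDimensional ℂ (G ⟶ ι.obj A))
    (hbdd : ∀ A : C, {n : ℤ | ∃ f : G ⟶ ι.obj (A⟦n⟧), f ≠ 0}.Finite) (X : Triangle C)
    (hT : X ∈ distTriang C) :
    degChar ι G X.obj₂ = degChar ι G X.obj₁ + degChar ι G X.obj₃ := by
  have hT' : Triangle.mk X.mor₁ X.mor₂ X.mor₃ ∈ distTriang C := hT
  have key := finrankι_tri (ι := ι) G hfin hT'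
  set t : ℤ → ℤ := fun n => (n.negOnePow : ℤ) * (rk G (ι.map (X.mor₃⟦n⟧')) : ℤ) with ht
  have hft : (Function.support t).Finite := by
    refine (deg_support (hbdd X.obj₃)).subset ?_
    intro n hn hcon
    apply hn
    have := (key n).2.1
    have h0 : rk G (ι.map (X.mor₃⟦n⟧')) = 0 := by
      have h1 : Module.finrank ℂ (G ⟶ ι.obj (X.obj₃⟦n⟧)) = 0 := hcon
      omega
    simp [ht, h0]
  have hft' : (Function.support fun n => t (n - 1)).Finite := by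
    have : (Function.support fun n => t (n - 1)) = (· - 1) ⁻¹' (Function.support t) := rfl
    rw [this]
    exact hft.preimage (sub_left_injective.injOn)
  have hshift : ∑ᶠ n : ℤ, t (n - 1) = ∑ᶠ n : ℤ, t n :=
    finsum_comp_equiv (Equiv.subRight (1 : ℤ))
  have e : ∀ n : ℤ, (n.negOnePow : ℤ) * (Module.finrank ℂ (G ⟶ ι.obj (X.obj₁⟦n⟧)) : ℤ) +
      (n.negOnePow : ℤ) * (Module.finrank ℂ (G ⟶ ι.obj (X.obj₃⟦n⟧)) : ℤ) =
      (n.negOnePow : ℤ) * (Module.finrank ℂ (G ⟶ ι.obj (X.obj₂⟦n⟧)) : ℤ) +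
        (t n - t (n - 1)) := by
    intro n
    have h1 := (key n).1
    have h2 := (key n).2.1
    have h3 := (key (n - 1)).2.2
    rw [show n - 1 + 1 = n by ring] at h3
    rw [h1, h2, h3]
    simp only [ht, Int.negOnePow_sub, Int.negOnePow_one]
    push_cast
    ring
  rw [degChar, degChar, degChar,
    ← finsum_add_distrib (deg_support' (hbdd _)) (deg_support' (hbdd _))]
  simp_rw [e]
  have hsub : (Function.support fun n => t n - t (n - 1)).Finite :=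
    (hft.union hft').subset (Function.support_sub _ _)
  rw [finsum_add_distrib (deg_support' (hbdd _)) hsub, finsum_sub_distrib hft hft', hshift]
  ring

/-- The degree homomorphism. -/
noncomputable def degHom (ι : C ⥤ T) [ι.CommShift ℤ] [ι.IsTriangulated] [ι.Full] [ι.Faithful]
    [ι.Linear ℂ] {G : T} (hfin : ∀ A : C, FiniteDimensional ℂ (G ⟶ ι.obj A))
    (hbdd : ∀ A : C, {n : ℤ | ∃ f : G ⟶ ι.obj (A⟦n⟧), f ≠ 0}.Finite) : K0 C →+ ℤ :=
  K0.lift (fun A => degChar ι G A) (degChar_triangle hfin hbdd)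

lemma degHom_cls {G : T} (hfin : ∀ A : C, FiniteDimensional ℂ (G ⟶ ι.obj A))
    (hbdd : ∀ A : C, {n : ℤ | ∃ f : G ⟶ ι.obj (A⟦n⟧), f ≠ 0}.Finite) (A : C) :
    degHom ι hfin hbdd (cls A) = degChar ι G A := by
  rw [degHom, K0.lift_cls]

end Pool.Stab
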