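import Mathlib
import Pool.Agent.Work.MP_841263_o.DegHom
import Pool.Agent.Work.MP_841263_st.Radical3
import Pool.Agent.Work.MP_841263_st.Top

/-!
# The orientation of a stability condition
-/

open CategoryTheory CategoryTheory.Limits CategoryTheory.Pretriangulated
open scoped ZeroObject

set_option backward.isDefEq.respectTransparency false
set_option backward.defeqAttrib.useBackward true
set_option linter.unusedSectionVars false

namespace Pool.Stab

universe v u v' u'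

section C

variable {C : Type u} [Category.{v} C] [Preadditive C] [HasZeroObject C] [HasShift C ℤ]
  [∀ n : ℤ, (shiftFunctor C n).Additive] [Pretriangulated C]

lemma Slicing.P_shift {S : Slicing C} {φ : ℝ} {X : C} (hX : S.P φ X) (n : ℤ) :
    S.P (φ + n) (X⟦n⟧) := by
  refine Slicing.In.P_of_singleton ?_
  refine ((Slicing.in_of_P hX (Set.mem_singleton φ)).shift n).mono ?_
  rintro _ ⟨x, hx, rfl⟩
  rw [Set.mem_singleton_iff] at hx
  subst hx
  rfl

lemma StabCond.orient_semistable (σ : StabCond C) {φ ψ : ℝ} {X Y : C} (hX : σ.sl.P φ X)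
    (hX0 : ¬ IsZero X) (hY : σ.sl.P ψ Y) (hY0 : ¬ IsZero Y) :
    ∃ c : ℝ, 0 < c ∧ σ.orient (cls X) (cls Y) = c * Real.sin (Real.pi * (ψ - φ)) := by
  obtain ⟨m, hm, h1⟩ := σ.compat φ X hX hX0
  obtain ⟨m', hm', h2⟩ := σ.compat ψ Y hY hY0
  refine ⟨m * m', mul_pos hm hm', ?_⟩
  have h3 : (starRingEnd ℂ) (σ.Z (cls X)) * σ.Z (cls Y) =
      ((m * m' : ℝ) : ℂ) * Complex.exp (((Real.pi * (ψ - φ) : ℝ) : ℂ) * Complex.I) := by
    rw [h1, h2, map_mul, Complex.conj_ofReal, ← Complex.exp_conj]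
    have h4 : (starRingEnd ℂ) (Real.pi * φ * Complex.I) = -(Real.pi * φ * Complex.I) := by
      rw [map_mul, map_mul, Complex.conj_ofReal, Complex.conj_ofReal, Complex.conj_I]
      ring
    rw [h4]
    have h5 : (m : ℂ) * Complex.exp (-(Real.pi * φ * Complex.I)) *
        (m' * Complex.exp (Real.pi * ψ * Complex.I)) =
        ((m : ℂ) * m') * (Complex.exp (-(Real.pi * φ * Complex.I)) *
          Complex.exp (Real.pi * ψ * Complex.I)) := by ring
    rw [h5, ← Complex.exp_add]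
    push_cast
    ring_nf
  rw [StabCond.orient, h3, Complex.im_ofReal_mul, Complex.exp_ofReal_mul_I_im]

lemma StabCond.orient_zsmul (σ : StabCond C) (x y : K0 C) (n : ℤ) :
    σ.orient x (n • y) = n * σ.orient x y := by
  rw [StabCond.orient, map_zsmul, zsmul_eq_mul, StabCond.orient]
  have : (starRingEnd ℂ) (σ.Z x) * ((n : ℂ) * σ.Z y) =
      ((n : ℝ) : ℂ) * ((starRingEnd ℂ) (σ.Z x) * σ.Z y) := by push_cast; ring
  rw [this, Complex.im_ofReal_mul]

lemma StabCond.orient_add (σ : StabCond C) (x y z : K0 C) :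
    σ.orient x (y + z) = σ.orient x y + σ.orient x z := by
  rw [StabCond.orient, map_add, mul_add, Complex.add_im]
  rfl

lemma StabCond.orient_swap (σ : StabCond C) (x y : K0 C) :
    σ.orient x y = - σ.orient y x := by
  rw [StabCond.orient, StabCond.orient]
  simp only [Complex.mul_im, Complex.conj_re, Complex.conj_im]
  ring

lemma StabCond.orient_self (σ : StabCond C) (x : K0 C) : σ.orient x x = 0 := by
  have := σ.orient_swap x x
  linarith

end C

variable {C : Type u} [Category.{v} C] [Preadditive C] [HasZeroObject C] [HasShift C ℤ]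
  [∀ n : ℤ, (shiftFunctor C n).Additive] [Pretriangulated C] [Linear ℂ C]
  [∀ n : ℤ, (shiftFunctor C n).Linear ℂ]
  {T : Type u'} [Category.{v'} T] [Preadditive T] [HasZeroObject T] [HasShift T ℤ]
  [∀ n : ℤ, (shiftFunctor T n).Additive] [Pretriangulated T] [Linear ℂ T]
  [∀ n : ℤ, (shiftFunctor T n).Linear ℂ]
  {ι : C ⥤ T} [ι.CommShift ℤ] [ι.IsTriangulated] [ι.Full] [ι.Faithful] [ι.Linear ℂ]

/-- The degree is nonpositive on one side. -/
lemma deg_nonpos (hK : IsK3 C) {S : Slicing C} {G : T} {τ : G ⟶ G} (hadm : Param ι τ) {B A : C}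
    (hB : IsCone ι τ B) {ψ φ : ℝ} (hBψ : S.P ψ B) (hA : S.P φ A) (h1 : ψ - 1 < φ) (h2 : φ < ψ) :
    degChar ι G A ≤ 0 := by
  have hvan : ∀ n : ℤ, n ≠ 1 → ∀ f : G ⟶ ι.obj (A⟦n⟧), f = 0 := by
    intro n hn
    rcases lt_or_gt_of_ne hn with hn | hn
    · refine hadm.zero_of_inj hB fun f => S.hom_zero ?_ hBψ (Slicing.P_shift hA n) f
      have : (n : ℝ) ≤ 0 := by exact_mod_cast Int.lt_add_one_iff.1 hn
      linarith
    · refine hadm.zero_of_onto hB ?_
      refine forall_zero_of_finrank hK ?_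
      rw [finrank_duality hK]
      refine finrank_of_forall_zero fun f => ?_
      refine S.hom_zero ?_ hA (Slicing.P_shift (S.P_shift_neg_one ψ B hBψ) (2 - n)) f
      have : (2 : ℝ) ≤ n := by exact_mod_cast hn
      push_cast
      linarith
  rw [degChar, finsum_eq_single _ (1 : ℤ)]
  · rw [Int.negOnePow_one]
    have : (0 : ℤ) ≤ (Module.finrank ℂ (G ⟶ ι.obj (A⟦(1 : ℤ)⟧)) : ℤ) := Int.natCast_nonneg _
    push_cast
    linarith
  · intro n hn
    rw [finrank_of_forall_zero (hvan n hn)]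
    simp

variable [IsTriangulated C] [IsTriangulated T] [Module.Finite ℤ (K0 C)] [Module.Free ℤ (K0 C)]

/-- The sign inequality. -/
theorem StabCond.sign_ineq (σ : StabCond C) (hK : IsK3 C) (hB : IsPSD (eulerForm hK))
    (hR : Module.finrank ℤ (radical (eulerForm hK)) = 2) (hind : Indecomposable C) {G₀ : T}
    {τ₀ : G₀ ⟶ G₀} (hadm : Param ι τ₀) {B₀ : C} (hB₀ : IsCone ι τ₀ B₀)
    (hdeg : ∃ A : C, cls A ∈ radical (eulerForm hK) ∧ degChar ι G₀ A ≠ 0)
    {a : K0 C} (ha : a ∈ radical (eulerForm hK)) :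
    0 ≤ σ.orient (cls B₀) a * (degHom ι hadm.fin hadm.bdd a : ℝ) := by
  by_cases ha0 : a = 0
  · rw [ha0, map_zero, Int.cast_zero, mul_zero]
  obtain ⟨k, hk, φ, X, hX, hX0, hcls⟩ := σ.radical_semistable hK hB hR hind ha ha0
  obtain ⟨G, τ, ψ, B, hadm', hB', hBψ, hB0, hclsB, hdeg'⟩ :=
    exists_single hK hB σ hadm hB₀ hdeg
  set n : ℤ := ⌊ψ - φ⌋ with hn
  have hn1 : (n : ℝ) ≤ ψ - φ := Int.floor_le _
  have hn2 : ψ - φ < n + 1 := Int.lt_floor_add_one _
  have hA : σ.sl.P (φ + n) (X⟦n⟧) := Slicing.P_shift hX n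
  have hA0 : ¬ IsZero (X⟦n⟧) := fun h => hX0 ((isZero_shift_iff _ _).1 h)
  have hclsA : cls (X⟦n⟧) = ((n.negOnePow : ℤ) * (k : ℤ)) • a := by
    rw [cls_shift, hcls, mul_smul, natCast_zsmul]
  have hAr : cls (X⟦n⟧) ∈ radical (eulerForm hK) := by
    rw [hclsA]
    exact Submodule.smul_mem _ _ ha
  obtain ⟨c, hc, hor⟩ := σ.orient_semistable hBψ hB0 hA hA0
  rw [hclsB, hclsA, σ.orient_zsmul] at hor
  set e : ℤ := (n.negOnePow : ℤ) * (k : ℤ) with he
  have he0 : e ≠ 0 := by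
    have h1 : (n.negOnePow : ℤ) ≠ 0 := n.negOnePow.ne_zero
    have h2 : (k : ℤ) ≠ 0 := by exact_mod_cast hk.ne'
    exact mul_ne_zero h1 h2
  have he' : (e : ℝ) ≠ 0 := by exact_mod_cast he0
  have hdegA : degHom ι hadm.fin hadm.bdd (cls (X⟦n⟧)) = degChar ι G (X⟦n⟧) := by
    rw [degHom_cls, hdeg' _ hAr]
  rw [hclsA, map_zsmul, smul_eq_mul] at hdegA
  rcases eq_or_lt_of_le hn1 with heq | hlt
  · have h3 : φ + (n : ℝ) - ψ = 0 := by linarith
    rw [h3, mul_zero, Real.sin_zero, mul_zero] at hor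
    have h4 : σ.orient (cls B₀) a = 0 := (mul_eq_zero.1 hor).resolve_left he'
    rw [h4, zero_mul]
  · have h3 : degChar ι G (X⟦n⟧) ≤ 0 :=
      deg_nonpos hK hadm' hB' hBψ hA (by linarith) (by linarith)
    rw [← hdegA] at h3
    have h4 : Real.sin (Real.pi * (φ + n - ψ)) < 0 := by
      refine Real.sin_neg_of_neg_of_neg_pi_lt ?_ ?_
      · nlinarith [Real.pi_pos]
      · nlinarith [Real.pi_pos]
    have h5 : (e : ℝ) * σ.orient (cls B₀) a < 0 := by
      rw [hor]
      exact mul_neg_of_pos_of_neg hc h4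
    have h6 : (e : ℝ) * (degHom ι hadm.fin hadm.bdd a : ℝ) ≤ 0 := by exact_mod_cast h3
    have h7 : 0 ≤ ((e : ℝ) * σ.orient (cls B₀) a) *
      ((e : ℝ) * (degHom ι hadm.fin hadm.bdd a : ℝ)) := mul_nonneg_of_nonpos_of_nonpos h5.le h6
    have h8 : ((e : ℝ) * σ.orient (cls B₀) a) * ((e : ℝ) * (degHom ι hadm.fin hadm.bdd a : ℝ)) =
      (e : ℝ) ^ 2 * (σ.orient (cls B₀) a * (degHom ι hadm.fin hadm.bdd a : ℝ)) := by ring
    rw [h8] at h7
    exact nonneg_of_mul_nonneg_right h7 (by positivity)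

end Pool.Stab
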