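import Mathlib
import Pool.Agent.Work.MP_841263_o.Sign

/-!
# All stability conditions have the same orientation
-/

open CategoryTheory CategoryTheory.Limits CategoryTheory.Pretriangulated
open scoped ZeroObject

set_option backward.isDefEq.respectTransparency false
set_option backward.defeqAttrib.useBackward true
set_option linter.unusedSectionVars false

namespace Pool.Stab

universe v u v' u'

variable {C : Type u} [Category.{v} C] [Preadditive C] [HasZeroObject C] [HasShift C ℤ]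
  [∀ n : ℤ, (shiftFunctor C n).Additive] [Pretriangulated C] [Linear ℂ C]
  [∀ n : ℤ, (shiftFunctor C n).Linear ℂ]
  {T : Type u'} [Category.{v'} T] [Preadditive T] [HasZeroObject T] [HasShift T ℤ]
  [∀ n : ℤ, (shiftFunctor T n).Additive] [Pretriangulated T] [Linear ℂ T]
  [∀ n : ℤ, (shiftFunctor T n).Linear ℂ]
  {ι : C ⥤ T} [ι.CommShift ℤ] [ι.IsTriangulated] [ι.Full] [ι.Faithful] [ι.Linear ℂ]
  [IsTriangulated C] [IsTriangulated T] [Module.Finite ℤ (K0 C)] [Module.Free ℤ (K0 C)]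

/-- The class of the cone is a nonzero element of the radical. -/
lemma cone_mem_radical (hK : IsK3 C) {G : T} {τ : G ⟶ G} (hadm : Param ι τ) {B : C}
    (hB : IsCone ι τ B) : cls B ∈ radical (eulerForm hK) := by
  intro y
  obtain ⟨A, rfl⟩ := exists_cls y
  rw [eulerForm_cls]
  have := degChar_cone hK hB hadm.fin hadm.bdd A
  linarith

lemma StabCond.Z_cone_ne_zero (σ : StabCond C) (hK : IsK3 C) (hB : IsPSD (eulerForm hK))
    {G₀ : T} {τ₀ : G₀ ⟶ G₀} (hadm : Param ι τ₀) {B₀ : C} (hB₀ : IsCone ι τ₀ B₀)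
    (hdeg : ∃ A : C, cls A ∈ radical (eulerForm hK) ∧ degChar ι G₀ A ≠ 0) :
    σ.Z (cls B₀) ≠ 0 := by
  obtain ⟨G, τ, ψ, B, hadm', hB', hBψ, hB0, hclsB, hdeg'⟩ :=
    exists_single hK hB σ hadm hB₀ hdeg
  rw [← hclsB]
  exact norm_pos_iff.1 (σ.polar 0 hBψ hB0).1

/-- **The orientation of a stability condition is determined by the degree.** -/
theorem StabCond.orient_deg (σ : StabCond C) (hK : IsK3 C) (hB : IsPSD (eulerForm hK))
    (hR : Module.finrank ℤ (radical (eulerForm hK)) = 2) (hind : Indecomposable C) {G₀ : T}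
    {τ₀ : G₀ ⟶ G₀} (hadm : Param ι τ₀) {B₀ : C} (hB₀ : IsCone ι τ₀ B₀)
    (hdeg : ∃ A : C, cls A ∈ radical (eulerForm hK) ∧ degChar ι G₀ A ≠ 0)
    {a : K0 C} (ha : a ∈ radical (eulerForm hK)) (hda : degHom ι hadm.fin hadm.bdd a ≠ 0) :
    0 < σ.orient (cls B₀) a * (degHom ι hadm.fin hadm.bdd a : ℝ) := by
  set f := degHom ι hadm.fin hadm.bdd with hf
  have hsign : ∀ x ∈ radical (eulerForm hK), 0 ≤ σ.orient (cls B₀) x * (f x : ℝ) :=
    fun x hx => σ.sign_ineq hK hB hR hind hadm hB₀ hdeg hx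
  have hb := cone_mem_radical hK hadm hB₀
  have hZ := σ.Z_cone_ne_zero hK hB hadm hB₀ hdeg
  have hb0 : cls B₀ ≠ 0 := by
    intro h
    rw [h, map_zero] at hZ
    exact hZ rfl
  -- an element with nonzero orientation
  obtain ⟨c, hc, hc0⟩ : ∃ c ∈ radical (eulerForm hK), σ.orient (cls B₀) c ≠ 0 := by
    by_contra hcon
    push Not at hcon
    obtain ⟨r, hr, s, hs, -, hrs⟩ := exists_basis_of_finrank_two _ hR
    have hrs' : ∀ n m : ℤ, n • r = m • s → n = 0 ∧ m = 0 := by
      intro n m hnm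
      have := hrs n (-m) (by rw [neg_smul, hnm]; abel)
      exact ⟨this.1, by simpa using this.2⟩
    obtain ⟨x, hx⟩ := orient_zero_dep (hcon r hr) hZ
    obtain ⟨y, hy⟩ := orient_zero_dep (hcon s hs) hZ
    refine σ.orient_ne_zero hK hB hR hind hr hs hrs' ?_
    rw [StabCond.orient, hx, hy, map_mul, Complex.conj_ofReal]
    have : (x : ℂ) * (starRingEnd ℂ) (σ.Z (cls B₀)) * ((y : ℂ) * σ.Z (cls B₀)) =
        ((x * y * Complex.normSq (σ.Z (cls B₀)) : ℝ) : ℂ) := by
      push_cast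
      rw [Complex.normSq_eq_conj_mul_self]
      ring
    rw [this, Complex.ofReal_im]
  have ha0 : σ.orient (cls B₀) a ≠ 0 := by
    intro h0
    -- `g(c + n a) f(c + n a) = g(c) (f(c) + n f(a))`
    have key : ∀ n : ℤ, 0 ≤ σ.orient (cls B₀) c * ((f c : ℝ) + n * (f a : ℝ)) := by
      intro n
      have h1 := hsign (c + n • a) (add_mem hc (Submodule.smul_mem _ _ ha))
      rw [σ.orient_add, σ.orient_zsmul, h0, mul_zero, add_zero, map_add, map_zsmul,
        smul_eq_mul] at h1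
      push_cast at h1
      exact h1
    have hfa : (f a : ℝ) ≠ 0 := by exact_mod_cast hda
    obtain ⟨N, hN⟩ := exists_int_gt (|(f c : ℝ) / (f a : ℝ)|)
    have hN1 := (abs_lt.1 hN).1
    have hN2 := (abs_lt.1 hN).2
    have k1 := key N
    have k2 := key (-N)
    push_cast at k1 k2
    have e1 : σ.orient (cls B₀) c * ((f c : ℝ) + N * (f a : ℝ)) =
        (σ.orient (cls B₀) c * (f a : ℝ)) * ((f c : ℝ) / (f a : ℝ) + N) := by
      field_simp
    have e2 : σ.orient (cls B₀) c * ((f c : ℝ) + -N * (f a : ℝ)) =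
        (σ.orient (cls B₀) c * (f a : ℝ)) * ((f c : ℝ) / (f a : ℝ) - N) := by
      field_simp
      ring
    rw [e1] at k1
    rw [e2] at k2
    have hne : σ.orient (cls B₀) c * (f a : ℝ) ≠ 0 := mul_ne_zero hc0 hfa
    rcases lt_or_gt_of_ne hne with hlt | hgt
    · nlinarith
    · nlinarith
  have h1 := hsign a ha
  have h2 : σ.orient (cls B₀) a * (f a : ℝ) ≠ 0 :=
    mul_ne_zero ha0 (by exact_mod_cast hda)
  exact lt_of_le_of_ne h1 (Ne.symm h2)

end Pool.Stab
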