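import Mathlib
import Pool.Agent.Work.MP_841263_o.Orient
import Pool.Agent.Work.MP_841263_c.Crit

/-!
# The space of stability conditions as a covering space of one half of the regular charges
-/

open CategoryTheory CategoryTheory.Limits CategoryTheory.Pretriangulated
open scoped ZeroObject

set_option backward.isDefEq.respectTransparency false
set_option backward.defeqAttrib.useBackward true
set_option linter.unusedSectionVars false

namespace Pool.Stab

universe v u v' u'

variable {C : Type u} [Category.{v} C] [Preadditive C] [HasZeroObject C] [HasShift C ℤ]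
  [∀ n : ℤ, (shiftFunctor C n).Additive] [Pretriangulated C] [IsTriangulated C] [Linear ℂ C]
  [∀ n : ℤ, (shiftFunctor C n).Linear ℂ]
  {T : Type u'} [Category.{v'} T] [Preadditive T] [HasZeroObject T] [HasShift T ℤ]
  [∀ n : ℤ, (shiftFunctor T n).Additive] [Pretriangulated T] [IsTriangulated T] [Linear ℂ T]
  [∀ n : ℤ, (shiftFunctor T n).Linear ℂ]
  {ι : C ⥤ T} [ι.CommShift ℤ] [ι.IsTriangulated] [ι.Full] [ι.Faithful] [ι.Linear ℂ]

/-- All stability conditions have the orientation given by the degree. -/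
theorem Setting.orient_pos (h : Setting C) {G : T} {t : G ⟶ G} (ht : Param ι t) {A B : C}
    (hB : IsCone ι t B) (hA : cls A ∈ radical (eulerForm h.k3)) (hdeg : degChar ι G A ≠ 0)
    (σ : StabCond C) : 0 < σ.orient (cls B) (cls A) * (degChar ι G A : ℝ) := by
  have := h.finite
  have := h.free
  have h1 := σ.orient_deg h.k3 (isPSD_of h.k3 h.psd) h.rank h.indec ht hB ⟨A, hA, hdeg⟩ hA
    (by rw [degHom_cls]; exact hdeg)
  rwa [degHom_cls] at h1

lemma Setting.independent (h : Setting C) {G : T} {t : G ⟶ G} (ht : Param ι t) {A B : C}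
    (hB : IsCone ι t B) (hA : cls A ∈ radical (eulerForm h.k3)) (hdeg : degChar ι G A ≠ 0)
    (σ : StabCond C) : LinearIndependent ℤ ![cls B, cls A] := by
  have := h.finite
  have := h.free
  have h1 := h.orient_pos ht hB hA hdeg σ
  have hZ := σ.Z_cone_ne_zero h.k3 (isPSD_of h.k3 h.psd) ht hB ⟨A, hA, hdeg⟩
  rw [LinearIndependent.pair_iff]
  intro n m hnm
  have h2 : m • cls A = (-n) • cls B := by
    rw [neg_smul]
    exact eq_neg_of_add_eq_zero_right hnm
  have h3 := congrArg (σ.orient (cls B)) h2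
  rw [σ.orient_zsmul, σ.orient_zsmul, σ.orient_self, mul_zero] at h3
  have hm : m = 0 := by
    rcases mul_eq_zero.1 h3 with h4 | h4
    · exact_mod_cast h4
    · rw [h4, zero_mul] at h1
      exact absurd h1 (lt_irrefl _)
  subst hm
  rw [zero_smul, add_zero] at hnm
  refine ⟨?_, rfl⟩
  rcases smul_eq_zero.1 hnm with h4 | h4
  · exact h4
  · rw [h4, map_zero] at hZ
    exact absurd rfl hZ

/-- **The whole space of stability conditions is a covering space of one half of the space of
regular charges.** -/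
theorem EllipticSetting.one_orientation (h : EllipticSetting C) {G : T} {t : G ⟶ G}
    (ht : Param ι t) {A B : C} (hB : IsCone ι t B) (hA : cls A ∈ radical (eulerForm h.k3))
    (hdeg : degChar ι G A ≠ 0) :
    (∀ σ : StabCond C, 0 < orientOf σ.Z (cls B) (cls A) * (degChar ι G A : ℝ)) ∧
    (∀ (σ : StabCond C) (W : Xreg (eulerForm h.k3)),
      0 < orientOf W.1 (cls B) (cls A) * (degChar ι G A : ℝ) →
        ∃ τ : StabCond C, Joined σ τ ∧ h.period τ = W) ∧
    ∀ σ₀ : StabCond C, SimplyConnectedSpace (StabCond C) ↔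
      ∀ τ : h.period ⁻¹' {h.period σ₀},
        ∃! γ : Path.Homotopic.Quotient (h.period σ₀) (h.period σ₀),
          h.isCoveringMap_period.monodromy γ ⟨σ₀, rfl⟩ = τ := by
  have := h.finite
  have := h.free
  have hpos : ∀ σ : StabCond C, 0 < orientOf σ.Z (cls B) (cls A) * (degChar ι G A : ℝ) :=
    fun σ => h.toSetting.orient_pos ht hB hA hdeg σ
  have hBr : cls B ∈ radical (eulerForm h.k3) := cone_mem_radical h.k3 ht hB
  have hd : (0 : ℝ) < (degChar ι G A : ℝ) * (degChar ι G A : ℝ) := by
    have : (degChar ι G A : ℝ) ≠ 0 := by exact_mod_cast hdeg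
    exact mul_self_pos.2 this
  have comb : ∀ x y : ℝ, 0 < x * (degChar ι G A : ℝ) → 0 < y * (degChar ι G A : ℝ) →
      0 < x * y := by
    intro x y hx hy
    have h1 : 0 < (x * y) * ((degChar ι G A : ℝ) * (degChar ι G A : ℝ)) := by
      have := mul_pos hx hy
      calc (0 : ℝ) < x * (degChar ι G A : ℝ) * (y * (degChar ι G A : ℝ)) := this
        _ = _ := by ring
    exact (pos_iff_pos_of_mul_pos h1).2 hd
  refine ⟨hpos, ?_, ?_⟩
  · intro σ W hW
    exact h.exists_joined hBr hA (h.toSetting.independent ht hB hA hdeg σ) σ W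
      (comb _ _ (hpos σ) hW)
  · intro σ₀
    rw [h.simplyConnected_iff hBr hA (h.toSetting.independent ht hB hA hdeg σ₀) σ₀]
    exact ⟨fun hh => hh.2, fun hh => ⟨fun σ => comb _ _ (hpos σ) (hpos σ₀), hh⟩⟩

end Pool.Stab
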